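import Mathlib

/-!
# Definitions and module statements for MP_021201_al (Morse limited groups, cut-points)

Everything is stated for integer valued metrics (word metrics).  The module statements are
`def Stmt… : Prop`; they are proved in separate files.
-/

namespace Pool.Agent.Helper93.ML

/-! ## Integer metrics -/

/-- An integer valued geodesic metric (the vertex set of a connected graph). -/
structure IsGeo {X : Type*} (d : X → X → ℕ) : Prop where
  eq_iff : ∀ x y, d x y = 0 ↔ x = y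
  symm : ∀ x y, d x y = d y x
  tri : ∀ x y z, d x z ≤ d x y + d y z
  interp : ∀ x y i, i ≤ d x y → ∃ z, d x z = i ∧ d z y = d x y - i

/-- Four point hyperbolicity. -/
def Hyp {X : Type*} (d : X → X → ℕ) (δ : ℕ) : Prop :=
  ∀ x y z w, d x z + d y w ≤ max (d x y + d z w) (d x w + d y z) + 2 * δ

/-- A discrete path with `n` steps (each step has length `0` or `1`). -/
def IsPath {X : Type*} (d : X → X → ℕ) (f : ℕ → X) (n : ℕ) : Prop :=
  ∀ i < n, d (f i) (f (i + 1)) ≤ 1

/-- Dehn property at scale `ℓ`: every closed path with at least one step has a subpath of at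
most `ℓ` steps which is not geodesic. -/
def Dehn {X : Type*} (d : X → X → ℕ) (ℓ : ℕ) : Prop :=
  ∀ (n : ℕ) (f : ℕ → X), 0 < n → IsPath d f n → f 0 = f n →
    ∃ i j, i < j ∧ j ≤ n ∧ j ≤ i + ℓ ∧ d (f i) (f j) + i < j

/-- MODULE M2. -/
def StmtDehnHyp : Prop :=
  ∀ (X : Type) (d : X → X → ℕ) (ℓ : ℕ), IsGeo d → 1 ≤ ℓ → Dehn d ℓ →
    Hyp d (10 ^ 6 * ℓ ^ 2)

/-! ## Marked groups -/

/-- Letters: generators `0 = a`, `1 = b`, `2 = c`, `3 = t`; the Boolean is `true` for the
generator and `false` for its formal inverse. -/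
abbrev Ltr := Fin 4 × Bool

/-- formal inverse of a letter -/
def inv1 (x : Ltr) : Ltr := (x.1, !x.2)

/-- formal inverse of a word -/
def invw (w : List Ltr) : List Ltr := (w.map inv1).reverse

/-- the letter `c` -/
abbrev lc : Ltr := (2, true)
/-- the letter `t` -/
abbrev lt : Ltr := (3, true)

/-- A group with four marked generators. -/
structure Mark (G : Type) [Group G] where
  s : Ltr → G
  s_inv : ∀ x, s (inv1 x) = (s x)⁻¹
  gen : Subgroup.closure (Set.range s) = ⊤

namespace Mark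
variable {G : Type} [Group G] (M : Mark G)

/-- evaluation of words -/
def ev (w : List Ltr) : G := (w.map M.s).prod

/-- word length -/
noncomputable def len (g : G) : ℕ := sInf {n | ∃ w, M.ev w = g ∧ w.length = n}

/-- word metric -/
noncomputable def d (x y : G) : ℕ := M.len (x⁻¹ * y)

/-- The bi-infinite periodic line through `1` reading the periodic word `…RRR…`. -/
noncomputable def line (R : List Ltr) (i : ℤ) : G :=
  (M.ev R) ^ (i / (R.length : ℤ)) * M.ev (R.take (i % (R.length : ℤ)).toNat)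

end Mark

/-! ## Clean words, rigidity, the invariant -/

/-- positive word in the letters `a,b,c` -/
def Pos (z : List Ltr) : Prop := ∀ x ∈ z, x.1 ≠ 3 ∧ x.2 = true

/-- freely reduced word -/
def Red (z : List Ltr) : Prop := z.IsChain (fun x y => y ≠ inv1 x)

/-- for every `(p,m)` in `cons`, every positive `a,b,c`-infix of length `≥ m` contains `c^p` -/
def Sep (cons : List (ℕ × ℕ)) (z : List Ltr) : Prop :=
  ∀ c ∈ cons, ∀ y, y <:+: z → Pos y → c.2 ≤ y.length → List.replicate c.1 lc <:+: y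

/-- clean words -/
def Clean (cons : List (ℕ × ℕ)) (z : List Ltr) : Prop :=
  Red z ∧ Sep cons z ∧ Sep cons (invw z)

/-- rigidity of clean words -/
def Rig {G : Type} [Group G] (M : Mark G) (cons : List (ℕ × ℕ)) : Prop :=
  ∀ D, ∃ Λ, ∀ (z z' : List Ltr) (P P' : G), Clean cons z → M.len (M.ev z') = z'.length →
    M.d P P' ≤ D → M.d (P * M.ev z) (P' * M.ev z') ≤ D →
    ∀ i, Λ ≤ i → i + Λ ≤ z.length →
      ∃ j ≤ z'.length, P * M.ev (z.take i) = P' * M.ev (z'.take j)

/-- the invariant of the inductive construction -/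
structure Inv {G : Type} [Group G] (M : Mark G) (cons : List (ℕ × ℕ)) (δ : ℕ) : Prop where
  cons_ok : ∀ c ∈ cons, 3 ≤ c.2 ∧ c.1 ≤ c.2
  hyp : Hyp M.d δ
  geod : ∀ z, Clean cons z → M.len (M.ev z) = z.length
  rig : Rig M cons

/-- MODULE Base: the free group of rank four satisfies the invariant with `δ = 0`, no
constraints. -/
def StmtBase : Prop :=
  ∃ (G : Type) (_ : Group G) (M : Mark G), Inv M [] 0

/-! ## Codes -/

/-- the properties of the code at one level (for words `w` of length `l`) -/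
structure IsCode (cons : List (ℕ × ℕ)) (p l n m : ℕ) (code : List Ltr → List Ltr) : Prop where
  pos : ∀ w, w.length = l → Pos (code w)
  len : ∀ w, w.length = l → (code w).length = n
  sep : ∀ w, w.length = l → Sep cons (code w)
  uniq : ∀ w w', w.length = l → w'.length = l → ∀ x x', x + m ≤ n → x' + m ≤ n →
    ((code w).drop x).take m = ((code w').drop x').take m → w = w' ∧ x = x'
  nop : ∀ w, w.length = l → ¬ (List.replicate p lc <:+: code w)
  m3 : 3 ≤ m
  pm : p ≤ m

/-- MODULE M7: existence of codes.  `C₀` depends only on `N₀`. -/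
def StmtCodes : Prop :=
  ∀ N₀ : ℕ, ∃ C₀ : ℕ, ∃ Good : List (ℕ × ℕ) → Prop, Good [] ∧
    ∀ cons, Good cons → ∃ p l₀ : ℕ, ∀ l ≥ l₀, ∃ (n m : ℕ) (code : List Ltr → List Ltr),
      IsCode cons p l n m code ∧ N₀ * m ≤ n ∧ N₀ * l ≤ n ∧ n ≤ C₀ * l ∧
        Good ((p, m) :: cons)

/-! ## The step -/

/-- `Mark` preserving homomorphism -/
def MapsTo {G H : Type} [Group G] [Group H] (M : Mark G) (M' : Mark H) (φ : G →* H) : Prop :=
  ∀ x, φ (M.s x) = M'.s x

/-- Bottleneck property for the line of the letter `e` at scale `s` with parameter `k`. -/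
def Bottle {H : Type} [Group H] (M : Mark H) (e : Ltr) (k s : ℕ) : Prop :=
  ∀ (n : ℕ) (f : ℕ → H), n ≤ k * s → IsPath M.d f n →
    f 0 = (M.s e)⁻¹ ^ s → f n = M.s e ^ s → ∃ i ≤ n, k * M.d 1 (f i) ≤ s

/-- What one step produces. -/
structure StepOut (C : ℕ) {G H : Type} [Group G] [Group H] (M : Mark G) (M' : Mark H)
    (φ : G →* H) (K : Set (List Ltr)) (e : Ltr) (k l : ℕ) : Prop where
  map : MapsTo M M' φ
  surj : Function.Surjective φ
  /-- nontrivial elements of the kernel are long -/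
  ker : ∀ g, φ g = 1 → g ≠ 1 → l ≤ M.len g
  /-- every word of `K` has a detour which is a quasi-geodesic with universal constants, and
  which stays away from the midpoint -/
  kill : ∀ w ∈ K, ∃ q : List Ltr, q.length ≤ C * l ∧ M'.ev q = M'.ev w ∧
    (∀ ζ, ζ <:+: q → ζ.length ≤ C * M'.len (M'.ev ζ)) ∧
    (∀ j ≤ q.length, l ≤ 4 * M'.d (M'.ev (w.take (l / 2))) (M'.ev (q.take j)))
  /-- the line of `e` is a bottleneck at all scales `≥ l / (k + 2)` -/
  bot : ∀ s, l ≤ (k + 2) * s → Bottle M' e k s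
  /-- the lines of `c` and of `t` are geodesic -/
  geoe : ∀ e' ∈ [lc, lt], ∀ j : ℕ, M'.len (M'.s e' ^ j) = j

/-- THE STEP.  `C` is universal. `Good` is a predicate on constraint lists. -/
def StmtStep : Prop :=
  ∃ (C : ℕ) (Good : List (ℕ × ℕ) → Prop), Good [] ∧
    ∀ (G : Type) [Group G] (M : Mark G) (cons : List (ℕ × ℕ)) (δ : ℕ),
      Good cons → Inv M cons δ →
      ∀ k ρ : ℕ, ∃ L₀ : ℕ, ∀ l ≥ L₀, ∀ e ∈ [lc, lt], ∀ K : Set (List Ltr),
        (∀ w ∈ K, w.length = l ∧ M.len (M.ev w) = l) →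
        (∀ w ∈ K, ¬ (List.replicate ρ e <:+: w) ∧ ¬ (List.replicate ρ (inv1 e) <:+: w)) →
        ∃ (H : Type) (_ : Group H) (M' : Mark H) (φ : G →* H) (cons' : List (ℕ × ℕ)) (δ' : ℕ),
          Good cons' ∧ Inv M' cons' δ' ∧ StepOut C M M' φ K e k l

/-! ## The combinatorial theorem -/

/-- every asymptotic cone has a cut-point, combinatorial form -/
def CutProp {G : Type} [Group G] (M : Mark G) : Prop :=
  ∀ K : ℕ, ∃ s₀, ∀ s ≥ s₀, ∃ x y : G, M.d 1 x = s ∧ M.d 1 y = s ∧
    ∀ (n : ℕ) (f : ℕ → G), n ≤ K * s → IsPath M.d f n → f 0 = x → f n = y →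
      ∃ i ≤ n, K * M.d 1 (f i) ≤ s

/-- Morse limitedness, combinatorial form -/
def MLProp {G : Type} [Group G] (M : Mark G) : Prop :=
  ∃ C : ℕ, ∀ R : ℕ, ∃ n₀ : ℕ, ∀ n ≥ n₀, ∀ σ : ℕ → G,
    (∀ i j, i ≤ j → j ≤ n → M.d (σ i) (σ j) = j - i) →
    ∃ (i m j N : ℕ) (q : ℕ → G), i ≤ m ∧ m ≤ j ∧ j ≤ n ∧ IsPath M.d q N ∧
      q 0 = σ i ∧ q N = σ j ∧ (∀ a b, a ≤ b → b ≤ N → b - a ≤ C * M.d (q a) (q b)) ∧
      (∀ a ≤ N, R < M.d (σ m) (q a))

/-- the combinatorial theorem -/
def StmtCT : Prop := ∃ (G : Type) (_ : Group G) (M : Mark G), CutProp M ∧ MLProp M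

/-- MODULE M9: the sequence construction. -/
def StmtSequence : Prop := StmtStep → StmtBase → StmtCT

end Pool.Agent.Helper93.ML
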