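import Mathlib
import Pool.Agent.Helper93.ML.Defs

/-!
# Coarse geometry of integer valued hyperbolic metrics
-/

namespace Pool.Agent.Helper93.ML

variable {X : Type*} {d : X → X → ℕ} {δ : ℕ}

namespace IsGeo

theorem self (hd : IsGeo d) (x : X) : d x x = 0 := (hd.eq_iff x x).2 rfl

theorem path_le (hd : IsGeo d) {f : ℕ → X} {n : ℕ} (hf : IsPath d f n) :
    ∀ i j, i ≤ j → j ≤ n → d (f i) (f j) + i ≤ j := by
  intro i j hij
  induction j, hij using Nat.le_induction with
  | base => intro _; rw [hd.self]; omega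
  | succ j hij ih =>
    intro hj
    have h1 := ih (by omega)
    have h2 := hf j (by omega)
    have h3 := hd.tri (f i) (f j) (f (j + 1))
    omega

end IsGeo

/-- thin triangles from the four point condition -/
theorem thin (hd : IsGeo d) (hδ : Hyp d δ) {x y z : X} (w : X) (hz : d x z + d z y = d x y) :
    (∃ z', d x z' + d z' w = d x w ∧ d z z' ≤ 4 * δ) ∨
      (∃ z', d w z' + d z' y = d w y ∧ d z z' ≤ 4 * δ) := by
  have sxw := hd.symm x w
  have t1 := hd.tri x w y
  have t2 := hd.tri x y w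
  have t3 := hd.tri w x y
  have swy := hd.symm w y
  by_cases h : 2 * d x z + d w y ≤ d x w + d x y
  · left
    obtain ⟨z', h1, h2⟩ := hd.interp x w (d x z) (by omega)
    refine ⟨z', by omega, ?_⟩
    have e1 := hδ z' x y w
    have e2 := hδ z x z' y
    have s1 := hd.symm z' x
    have s2 := hd.symm y w
    have s3 := hd.symm x z
    have s4 := hd.symm z' y
    omega
  · right
    obtain ⟨z', h1, h2⟩ := hd.interp y w (d z y) (by omega)
    have s0 := hd.symm z' w
    have s00 := hd.symm z' y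
    refine ⟨z', by omega, ?_⟩
    have e1 := hδ z' y x w
    have e2 := hδ z y z' x
    have s1 := hd.symm z' x
    have s2 := hd.symm y w
    have s3 := hd.symm x z
    have s5 := hd.symm y z
    have s6 := hd.symm x y
    omega

/-- a path of `n` steps passes close to every point of a geodesic between its endpoints -/
theorem path_near (hd : IsGeo d) (hδ : Hyp d δ) : ∀ (n : ℕ) (f : ℕ → X), IsPath d f n →
    ∀ z, d (f 0) z + d z (f n) = d (f 0) (f n) → ∃ i ≤ n, d z (f i) ≤ 4 * δ * Nat.clog 2 n := by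
  intro n
  induction n using Nat.strong_induction_on with
  | _ n IH =>
  intro f hf z hz
  by_cases h0 : n = 0
  · subst h0
    refine ⟨0, le_rfl, ?_⟩
    have := hd.self (f 0)
    have := hd.symm (f 0) z
    omega
  by_cases h1 : n = 1
  · subst h1
    have h2 := hf 0 (by omega)
    rw [zero_add] at h2
    by_cases h3 : d (f 0) z = 0
    · refine ⟨0, by omega, ?_⟩
      have := hd.symm (f 0) z
      omega
    · refine ⟨1, by omega, ?_⟩
      omega
  have hm : (n + 1) / 2 < n := by omega
  have hcl : Nat.clog 2 n = Nat.clog 2 ((n + 1) / 2) + 1 := by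
    rw [Nat.clog_of_two_le (by norm_num) (by omega), show n + 2 - 1 = n + 1 by omega]
  rcases thin hd hδ (f ((n + 1) / 2)) hz with ⟨z', h2, h3⟩ | ⟨z', h2, h3⟩
  · obtain ⟨i, hi, h4⟩ := IH _ hm f (fun i hi => hf i (by omega)) z' h2
    refine ⟨i, by omega, ?_⟩
    have := hd.tri z z' (f i)
    rw [hcl, Nat.mul_add]
    omega
  · obtain ⟨i, hi, h4⟩ := IH (n - (n + 1) / 2) (by omega) (fun i => f ((n + 1) / 2 + i))
      (fun i hi => by
        have := hf ((n + 1) / 2 + i) (by omega)
        simpa [add_assoc] using this) z' (by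
        have e : (n + 1) / 2 + (n - (n + 1) / 2) = n := by omega
        simp only [add_zero, e]
        exact h2)
    refine ⟨(n + 1) / 2 + i, by omega, ?_⟩
    have t := hd.tri z z' (f ((n + 1) / 2 + i))
    have hmono : Nat.clog 2 (n - (n + 1) / 2) ≤ Nat.clog 2 ((n + 1) / 2) :=
      Nat.clog_mono_right 2 (by omega)
    have h5 : 4 * δ * Nat.clog 2 (n - (n + 1) / 2) ≤ 4 * δ * Nat.clog 2 ((n + 1) / 2) :=
      Nat.mul_le_mul_left _ hmono
    rw [hcl, Nat.mul_add]
    omega

/-- discrete intermediate value along a path -/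
theorem path_ivt (hd : IsGeo d) {f : ℕ → X} : ∀ {n : ℕ}, IsPath d f n →
    ∀ r ≤ d (f 0) (f n), ∃ j ≤ n, d (f 0) (f j) = r := by
  intro n
  induction n with
  | zero =>
    intro _ r hr
    rw [hd.self] at hr
    exact ⟨0, le_rfl, by rw [hd.self]; omega⟩
  | succ n ih =>
    intro hf r hr
    by_cases h : r ≤ d (f 0) (f n)
    · obtain ⟨j, hj, h1⟩ := ih (fun i hi => hf i (by omega)) r h
      exact ⟨j, by omega, h1⟩
    · refine ⟨n + 1, le_rfl, ?_⟩
      have h1 := hf n (by omega)
      have h2 := hd.tri (f 0) (f n) (f (n + 1))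
      omega

/-- `c`-straight path on `[0,n]` -/
def Str (d : X → X → ℕ) (f : ℕ → X) (n c : ℕ) : Prop :=
  ∀ i j k, i ≤ j → j ≤ k → k ≤ n → d (f i) (f j) + d (f j) (f k) ≤ d (f i) (f k) + 2 * c

/-- locally almost geodesic path -/
def LQ (d : X → X → ℕ) (f : ℕ → X) (n A c : ℕ) : Prop :=
  ∀ i k, i ≤ k → k ≤ n → k ≤ i + 2 * A → k ≤ i + d (f i) (f k) + 2 * c

section LocalGlobal

variable {f : ℕ → X} {n A c : ℕ}

theorem lg1 (hd : IsGeo d) (hδ : Hyp d δ) (hf : IsPath d f n) (hL : LQ d f n A c)
    (hA : 4 * c + 3 * δ < A) : ∀ m i j k, j - i = m → i ≤ j → j ≤ k → k ≤ n → k ≤ j + A →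
    d (f i) (f j) + d (f j) (f k) ≤ d (f i) (f k) + 2 * c + 2 * δ := by
  intro m
  induction m using Nat.strong_induction_on with
  | _ m IH =>
  intro i j k hm hij hjk hkn hkA
  have p1 := hd.path_le hf i j hij (by omega)
  have p2 := hd.path_le hf j k hjk hkn
  by_cases h : j ≤ i + A
  · have h1 := hL i k (by omega) hkn (by omega)
    omega
  · have h1 := IH (j - A - i) (by omega) i (j - A) j rfl (by omega) (by omega) (by omega) (by omega)
    have h2 := hL (j - A) k (by omega) hkn (by omega)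
    have h3 := hL (j - A) j (by omega) (by omega) (by omega)
    have p3 := hd.path_le hf (j - A) j (by omega) (by omega)
    have e := hδ (f i) (f (j - A)) (f j) (f k)
    omega

theorem lg1' (hd : IsGeo d) (hδ : Hyp d δ) (hf : IsPath d f n) (hL : LQ d f n A c)
    (hA : 4 * c + 3 * δ < A) : ∀ m i j k, k - j = m → i ≤ j → j ≤ k → k ≤ n → j ≤ i + A →
    d (f i) (f j) + d (f j) (f k) ≤ d (f i) (f k) + 2 * c + 2 * δ := by
  intro m
  induction m using Nat.strong_induction_on with
  | _ m IH =>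
  intro i j k hm hij hjk hkn hkA
  have p1 := hd.path_le hf i j hij (by omega)
  have p2 := hd.path_le hf j k hjk hkn
  by_cases h : k ≤ j + A
  · have h1 := hL i k (by omega) hkn (by omega)
    omega
  · have h1 := IH (k - (j + A)) (by omega) j (j + A) k rfl (by omega) (by omega) (by omega)
      (by omega)
    have h2 := hL i (j + A) (by omega) (by omega) (by omega)
    have h3 := hL j (j + A) (by omega) (by omega) (by omega)
    have p3 := hd.path_le hf j (j + A) (by omega) (by omega)
    have e := hδ (f i) (f j) (f (j + A)) (f k)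
    omega

/-- local-to-global, straightness -/
theorem local_str (hd : IsGeo d) (hδ : Hyp d δ) (hf : IsPath d f n) (hL : LQ d f n A c)
    (hA : 4 * c + 3 * δ < A) : Str d f n (c + 2 * δ) := by
  intro i j k hij hjk hkn
  by_cases h : k ≤ j + A
  · have := lg1 hd hδ hf hL hA _ i j k rfl hij hjk hkn h
    omega
  · have h1 := lg1 hd hδ hf hL hA _ i j (j + A) rfl hij (by omega) (by omega) le_rfl
    have h2 := lg1' hd hδ hf hL hA _ j (j + A) k rfl (by omega) (by omega) hkn le_rfl
    have h3 := hL j (j + A) (by omega) (by omega) (by omega)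
    have p3 := hd.path_le hf j (j + A) (by omega) (by omega)
    have e := hδ (f i) (f j) (f (j + A)) (f k)
    omega

/-- local-to-global, growth -/
theorem local_growth (hd : IsGeo d) (hδ : Hyp d δ) (hf : IsPath d f n) (hL : LQ d f n A c)
    (hA : 4 * c + 3 * δ < A) : ∀ m i j, j - i = m → i ≤ j → j ≤ n →
    j ≤ i + d (f i) (f j) + ((j - i) / A + 1) * (4 * c + 2 * δ) := by
  intro m
  induction m using Nat.strong_induction_on with
  | _ m IH =>
  intro i j hm hij hjn
  by_cases h : j ≤ i + 2 * A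
  · have h1 := hL i j hij hjn h
    have h2 : 4 * c + 2 * δ ≤ ((j - i) / A + 1) * (4 * c + 2 * δ) :=
      Nat.le_mul_of_pos_left _ (Nat.succ_pos _)
    omega
  · have h1 := IH (j - A - i) (by omega) i (j - A) rfl (by omega) (by omega)
    have h2 := lg1 hd hδ hf hL hA _ i (j - A) j rfl (by omega) (by omega) (by omega) (by omega)
    have h3 := hL (j - A) j (by omega) (by omega) (by omega)
    have h4 : (j - i) / A = (j - A - i) / A + 1 := by
      rw [show j - i = (j - A - i) + A by omega, Nat.add_div_right _ (by omega)]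
    rw [h4]
    have h5 : ((j - A - i) / A + 1 + 1) * (4 * c + 2 * δ) =
      ((j - A - i) / A + 1) * (4 * c + 2 * δ) + (4 * c + 2 * δ) := by ring
    omega

/-- local-to-global, linear growth -/
theorem local_growth2 (hd : IsGeo d) (hδ : Hyp d δ) (hf : IsPath d f n) (hL : LQ d f n A c)
    (hA : 8 * c + 4 * δ < A) {i j : ℕ} (hij : i ≤ j) (hjn : j ≤ n) :
    j ≤ i + 2 * d (f i) (f j) + 2 * (4 * c + 2 * δ) := by
  have h1 := local_growth hd hδ hf hL (by omega) _ i j rfl hij hjn
  have h2 : ((j - i) / A) * (2 * (4 * c + 2 * δ)) ≤ j - i :=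
    le_trans (Nat.mul_le_mul_left _ (by omega)) (Nat.div_mul_le_self (j - i) A)
  have h3 : ((j - i) / A + 1) * (4 * c + 2 * δ) = ((j - i) / A) * (4 * c + 2 * δ) +
    (4 * c + 2 * δ) := by ring
  have h4 : ((j - i) / A) * (2 * (4 * c + 2 * δ)) = 2 * (((j - i) / A) * (4 * c + 2 * δ)) := by
    ring
  omega

end LocalGlobal

/-- a point almost on a geodesic is close to a straight path -/
theorem near_str (hd : IsGeo d) (hδ : Hyp d δ) {f : ℕ → X} {n c : ℕ} (hf : IsPath d f n)
    (hs : Str d f n c) {p : X} {e : ℕ} (hp : d (f 0) p + d p (f n) ≤ d (f 0) (f n) + 2 * e) :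
    ∃ j ≤ n, d p (f j) ≤ 2 * e + 2 * c + 2 * δ := by
  by_cases h : d (f 0) p ≤ d (f 0) (f n)
  · obtain ⟨j, hj, h1⟩ := path_ivt hd hf _ h
    refine ⟨j, hj, ?_⟩
    have h2 := hs 0 j n (by omega) hj le_rfl
    have e1 := hδ p (f 0) (f j) (f n)
    have s1 := hd.symm p (f 0)
    have s2 := hd.symm p (f j)
    omega
  · refine ⟨n, le_rfl, ?_⟩
    omega

/-- nearest point projection to the start of a straight path -/
theorem proj_start (hd : IsGeo d) (hδ : Hyp d δ) {f : ℕ → X} {n c : ℕ} (hf : IsPath d f n)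
    (hs : Str d f n c) {p : X} (hp : ∀ i ≤ n, d p (f 0) ≤ d p (f i)) :
    d p (f 0) + d (f 0) (f n) ≤ d p (f n) + 4 * c + 4 * δ + 1 := by
  by_contra hc
  have t1 := hd.tri p (f 0) (f n)
  have t2 := hd.tri (f 0) p (f n)
  have t3 := hd.tri p (f n) (f 0)
  have s1 := hd.symm p (f 0)
  have s4 := hd.symm (f n) (f 0)
  obtain ⟨j, hj, h1⟩ := path_ivt hd hf ((d p (f 0) + d (f 0) (f n) - d p (f n)) / 2) (by omega)
  have h2 := hs 0 j n (by omega) hj le_rfl
  have h3 := hp j hj
  have e1 := hδ p (f 0) (f j) (f n)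
  omega

/-- two far apart projections -/
theorem proj_two (hd : IsGeo d) (hδ : Hyp d δ) {p q b b' : X} {C : ℕ}
    (h1 : d p b + d b b' ≤ d p b' + C) (h2 : d q b' + d b' b ≤ d q b + C)
    (h3 : C + δ < d b b') :
    d p b + d b b' + d b' q ≤ d p q + 2 * C + 2 * δ := by
  have e1 := hδ p b b' q
  have s1 := hd.symm b b'
  have s2 := hd.symm q b'
  have s3 := hd.symm q b
  omega

end Pool.Agent.Helper93.ML
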