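import Mathlib
import Pool.Agent.Helper93.ML.Defs

/-!
# Basic lemmas on marked groups
-/

namespace Pool.Agent.Helper93.ML

theorem inv1_inv1 (x : Ltr) : inv1 (inv1 x) = x := by
  simp [inv1]

theorem invw_nil : invw [] = [] := by simp [invw]

theorem invw_length (w : List Ltr) : (invw w).length = w.length := by simp [invw]

theorem invw_append (a b : List Ltr) : invw (a ++ b) = invw b ++ invw a := by simp [invw]

theorem invw_invw (w : List Ltr) : invw (invw w) = w := by
  simp only [invw, List.map_reverse, List.reverse_reverse, List.map_map]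
  conv_rhs => rw [← List.map_id w]
  congr 1
  funext x
  simp [inv1]

theorem invw_cons (x : Ltr) (w : List Ltr) : invw (x :: w) = invw w ++ [inv1 x] := by
  simp [invw]

namespace Mark

variable {G : Type} [Group G] (M : Mark G)

theorem ev_nil : M.ev [] = 1 := by simp [ev]

theorem ev_append (a b : List Ltr) : M.ev (a ++ b) = M.ev a * M.ev b := by simp [ev]

theorem ev_cons (x : Ltr) (b : List Ltr) : M.ev (x :: b) = M.s x * M.ev b := by simp [ev]

theorem ev_singleton (x : Ltr) : M.ev [x] = M.s x := by simp [ev]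

theorem ev_invw (w : List Ltr) : M.ev (invw w) = (M.ev w)⁻¹ := by
  induction w with
  | nil => simp [invw, ev]
  | cons x w ih => rw [invw_cons, ev_append, ih, ev_singleton, ev_cons, M.s_inv, mul_inv_rev]

theorem ev_replicate (n : ℕ) (x : Ltr) : M.ev (List.replicate n x) = M.s x ^ n := by
  simp [ev]

theorem exists_word (g : G) : ∃ w, M.ev w = g := by
  have h : g ∈ Subgroup.closure (Set.range M.s) := by rw [M.gen]; trivial
  induction h using Subgroup.closure_induction with
  | mem x hx =>
    obtain ⟨y, rfl⟩ := hx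
    exact ⟨[y], M.ev_singleton y⟩
  | one => exact ⟨[], M.ev_nil⟩
  | mul x y _ _ hx hy =>
    obtain ⟨a, rfl⟩ := hx
    obtain ⟨b, rfl⟩ := hy
    exact ⟨a ++ b, M.ev_append a b⟩
  | inv x _ hx =>
    obtain ⟨a, rfl⟩ := hx
    exact ⟨invw a, M.ev_invw a⟩

theorem exists_geod (g : G) : ∃ w, M.ev w = g ∧ w.length = M.len g := by
  obtain ⟨w, hw⟩ := M.exists_word g
  exact Nat.sInf_mem (s := {n | ∃ w, M.ev w = g ∧ w.length = n}) ⟨w.length, w, hw, rfl⟩

theorem len_le (w : List Ltr) : M.len (M.ev w) ≤ w.length :=
  Nat.sInf_le ⟨w, rfl, rfl⟩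

theorem len_one : M.len 1 = 0 := by
  have := M.len_le []
  rw [M.ev_nil] at this
  simpa using this

theorem len_eq_zero {g : G} (h : M.len g = 0) : g = 1 := by
  obtain ⟨w, h1, h2⟩ := M.exists_geod g
  rw [h] at h2
  rw [List.length_eq_zero_iff] at h2
  rw [← h1, h2, M.ev_nil]

theorem len_mul (a b : G) : M.len (a * b) ≤ M.len a + M.len b := by
  obtain ⟨w, rfl, h2⟩ := M.exists_geod a
  obtain ⟨w', rfl, h2'⟩ := M.exists_geod b
  rw [← M.ev_append, ← h2, ← h2', ← List.length_append]
  exact M.len_le _

theorem len_inv_le (a : G) : M.len a⁻¹ ≤ M.len a := by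
  obtain ⟨w, rfl, h2⟩ := M.exists_geod a
  rw [← M.ev_invw, ← h2, ← invw_length]
  exact M.len_le _

theorem len_inv (a : G) : M.len a⁻¹ = M.len a :=
  le_antisymm (M.len_inv_le a) (by simpa using M.len_inv_le a⁻¹)

theorem len_s_le (x : Ltr) : M.len (M.s x) ≤ 1 := by
  have := M.len_le [x]
  rw [M.ev_singleton] at this
  simpa using this

theorem d_mul_left (g x y : G) : M.d (g * x) (g * y) = M.d x y := by
  unfold d; congr 1; group

theorem d_one_left (x : G) : M.d 1 x = M.len x := by simp [d]

theorem d_mul_right_self (x y : G) : M.d x (x * y) = M.len y := by simp [d]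

theorem isGeo : IsGeo M.d where
  eq_iff x y := by
    constructor
    · intro h
      have := M.len_eq_zero h
      rw [inv_mul_eq_one] at this
      exact this
    · rintro rfl
      simp [d, M.len_one]
  symm x y := by
    unfold d
    rw [← M.len_inv]
    congr 1
    group
  tri x y z := by
    unfold d
    have := M.len_mul (x⁻¹ * y) (y⁻¹ * z)
    rwa [show x⁻¹ * y * (y⁻¹ * z) = x⁻¹ * z by group] at this
  interp x y i hi := by
    unfold d at *
    obtain ⟨w, h1, h2⟩ := M.exists_geod (x⁻¹ * y)
    have e1 : x⁻¹ * (x * M.ev (w.take i)) = M.ev (w.take i) := by group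
    have e2 : (x * M.ev (w.take i))⁻¹ * y = M.ev (w.drop i) := by
      have : M.ev w = M.ev (w.take i) * M.ev (w.drop i) := by
        rw [← M.ev_append, List.take_append_drop]
      rw [h1] at this
      rw [mul_inv_rev, mul_assoc, this]
      group
    have l1 := M.len_le (w.take i)
    have l2 := M.len_le (w.drop i)
    have l3 : M.len (M.ev w) ≤ M.len (M.ev (w.take i)) + M.len (M.ev (w.drop i)) := by
      have : M.ev w = M.ev (w.take i) * M.ev (w.drop i) := by
        rw [← M.ev_append, List.take_append_drop]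
      rw [this]
      exact M.len_mul _ _
    rw [h1] at l3
    rw [List.length_take] at l1
    rw [List.length_drop] at l2
    refine ⟨x * M.ev (w.take i), ?_, ?_⟩
    · rw [e1]; omega
    · rw [e2]; omega

/-- geodesic word -/
def Gd (w : List Ltr) : Prop := M.len (M.ev w) = w.length

variable {M}

theorem Gd.append_left {a b : List Ltr} (h : M.Gd (a ++ b)) : M.Gd a := by
  unfold Gd at *
  rw [M.ev_append, List.length_append] at h
  have l1 := M.len_le a
  have l2 := M.len_le b
  have l3 := M.len_mul (M.ev a) (M.ev b)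
  omega

theorem Gd.append_right {a b : List Ltr} (h : M.Gd (a ++ b)) : M.Gd b := by
  unfold Gd at *
  rw [M.ev_append, List.length_append] at h
  have l1 := M.len_le a
  have l2 := M.len_le b
  have l3 := M.len_mul (M.ev a) (M.ev b)
  omega

theorem Gd.sub {a b : List Ltr} (h : M.Gd b) (hab : a <:+: b) : M.Gd a := by
  obtain ⟨s, t, rfl⟩ := hab
  exact h.append_left.append_right

variable (M)

/-- the path read by a word -/
def pth (P : G) (w : List Ltr) (i : ℕ) : G := P * M.ev (w.take i)

theorem pth_zero (P : G) (w : List Ltr) : M.pth P w 0 = P := by simp [pth, ev]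

theorem pth_length (P : G) (w : List Ltr) : M.pth P w w.length = P * M.ev w := by simp [pth]

theorem ev_take_add (w : List Ltr) (i j : ℕ) :
    M.ev (w.take (i + j)) = M.ev (w.take i) * M.ev ((w.drop i).take j) := by
  rw [← M.ev_append, List.take_add]

theorem d_pth (P : G) (w : List Ltr) {i j : ℕ} (hij : i ≤ j) :
    M.d (M.pth P w i) (M.pth P w j) = M.len (M.ev ((w.drop i).take (j - i))) := by
  unfold pth d
  congr 1
  have h := M.ev_take_add w i (j - i)
  rw [show i + (j - i) = j by omega] at h
  rw [h]
  group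

theorem isPath_pth (P : G) (w : List Ltr) (n : ℕ) : IsPath M.d (M.pth P w) n := by
  intro i _
  rw [M.d_pth P w (by omega : i ≤ i + 1)]
  refine le_trans (M.len_le _) ?_
  rw [List.length_take]
  omega

theorem pth_geod {P : G} {w : List Ltr} (hw : M.Gd w) {i j : ℕ} (hij : i ≤ j)
    (hj : j ≤ w.length) : M.d (M.pth P w i) (M.pth P w j) = j - i := by
  rw [M.d_pth P w hij]
  have : M.Gd ((w.drop i).take (j - i)) := by
    apply hw.sub
    exact (List.take_prefix _ _).isInfix.trans (List.drop_suffix _ _).isInfix
  unfold Gd at this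
  rw [this, List.length_take, List.length_drop]
  omega

end Mark

end Pool.Agent.Helper93.ML
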