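import Mathlib

/-!
# Spinning families: a Greendlinger lemma

An abstract version of the Greendlinger lemma: a nontrivial element of the subgroup generated by
the stabilisers of the `axes` rotates every base point a lot around some axis.  The proof uses
words of stabiliser elements of minimal weight (minimal for Hurwitz moves).
-/

namespace Pool.Agent.Helper93.ML

/-- A spinning family. -/
structure Spin (G P Y : Type*) [Group G] [MulAction G P] [MulAction G Y] where
  A : Y → Set P
  dv : Y → P → P → ℕ
  D : P → Y → ℕ
  τ : ℕ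
  θ : ℕ
  A_ne : ∀ v, (A v).Nonempty
  A_smul : ∀ (g : G) (v : Y) (z : P), z ∈ A v → g • z ∈ A (g • v)
  dv_self : ∀ v p, dv v p p = 0
  dv_symm : ∀ v p q, dv v p q = dv v q p
  dv_tri : ∀ v p q r, dv v p r ≤ dv v p q + dv v q r
  dv_smul : ∀ (g : G) v p q, dv (g • v) (g • p) (g • q) = dv v p q
  D_smul : ∀ (g : G) p v, D (g • p) (g • v) = D p v
  level : ∀ u v p z, u ≠ v → z ∈ A u → θ < dv v p z → D p v < D p u
  rot : ∀ u v p z, u ≠ v → z ∈ A u → τ + 2 * θ < 2 * dv v p z →
    ∃ h : G, h • v = v ∧ D p (h • u) < D p u
  spin : ∀ v (h : G) p, h • v = v → h ≠ 1 → τ ≤ dv v p (h • p)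
  big : 50 * θ + 10 ≤ τ

namespace Spin

variable {G P Y : Type*} [Group G] [MulAction G P] [MulAction G Y] (S : Spin G P Y)

theorem beh {u v : Y} {p a b : P} (h : u ≠ v) (ha : a ∈ S.A u) (hb : b ∈ S.A v) :
    S.dv u p b ≤ S.θ ∨ S.dv v p a ≤ S.θ := by
  by_contra hc
  push Not at hc
  have h1 := S.level v u p b h.symm hb hc.1
  have h2 := S.level u v p a h ha hc.2
  omega

/-- Abstract reduced sequences of rotations. -/
structure Seq (k : ℕ) (x : ℕ → P) (W : ℕ → Y) (Lev : ℕ → ℕ) : Prop where
  p1 : ∀ i < k, ∀ r ≤ k, Lev i ≤ S.D (x r) (W i)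
  p1a : ∀ i < k, S.D (x i) (W i) = Lev i
  p1b : ∀ i < k, S.D (x (i + 1)) (W i) = Lev i
  p2 : ∀ i < k, ∀ j < k, W i = W j → i = j
  p3 : ∀ i < k, S.τ ≤ S.dv (W i) (x i) (x (i + 1))
  p4l : ∀ i < k, ∀ j < i, ∀ z ∈ S.A (W j), 2 * S.dv (W i) (x (j + 1)) z ≤ S.τ + 2 * S.θ
  p4r : ∀ j < k, ∀ i < j, ∀ z ∈ S.A (W j), 2 * S.dv (W i) (x j) z ≤ S.τ + 2 * S.θ

variable {S}

/-- the key claim: low level sequences project to a small set on high level axes -/
theorem Seq.small {k : ℕ} {x : ℕ → P} {W : ℕ → Y} {Lev : ℕ → ℕ} (H : S.Seq k x W Lev) :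
    ∀ (n s t : ℕ) (V : Y), t - s = n → s ≤ t → t ≤ k →
      (∀ i, s ≤ i → i < t → W i ≠ V ∧ ∀ r, s ≤ r → r ≤ t → Lev i ≤ S.D (x r) V) →
      S.dv V (x s) (x t) ≤ 6 * S.θ := by
  intro n
  induction n using Nat.strong_induction_on with
  | _ n IH =>
  intro s t V hn hst htk hV
  -- choice of points on the axes
  have hz : ∃ z : ℕ → P, ∀ i, z i ∈ S.A (W i) := ⟨fun i => (S.A_ne (W i)).some, fun i =>
    (S.A_ne (W i)).some_mem⟩
  obtain ⟨z, hz⟩ := hz
  obtain ⟨zV, hzV⟩ := S.A_ne V
  set EL : ℕ → P := fun L => if L = s then x s else z (L - 1) with hEL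
  set ER : ℕ → P := fun R => if R = t then x t else z R with hER
  have hb := S.big
  have key : ∀ (g L R : ℕ), R - L = g → s ≤ L → L ≤ R → R ≤ t →
      (L = s ∨ 3 * S.θ < S.dv (W (L - 1)) (x s) (x t)) →
      (R = t ∨ 3 * S.θ < S.dv (W R) (x s) (x t)) →
      (s < L → S.dv (W (L - 1)) (x t) (ER R) ≤ S.θ) →
      (R < t → S.dv (W R) (x s) (EL L) ≤ S.θ) →
      S.dv V (x s) (EL L) ≤ S.θ → S.dv V (x t) (ER R) ≤ S.θ →
      S.dv V (x s) (x t) ≤ 6 * S.θ := by
    intro g
    induction g using Nat.strong_induction_on with
    | _ g IH2 =>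
    intro L R hg hsL hLR hRt hi hii hiiiL hiiiR hivL hivR
    -- distance of the gap points to the boundary axes, seen from V
    have hVL : S.dv V (x L) (EL L) ≤ S.θ := by
      by_cases hLs : L = s
      · simp only [hEL, hLs, if_true]
        rw [S.dv_self]; omega
      · have h1 : EL L = z (L - 1) := by simp [hEL, hLs]
        rw [h1]
        by_contra hc
        push Not at hc
        have hl := (hV (L - 1) (by omega) (by omega))
        have h2 := S.level (W (L - 1)) V (x L) (z (L - 1)) hl.1 (hz _) hc
        have h3 := hl.2 L (by omega) (by omega)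
        have h4 := H.p1b (L - 1) (by omega)
        have h5 : L - 1 + 1 = L := by omega
        rw [h5] at h4
        omega
    have hVR : S.dv V (x R) (ER R) ≤ S.θ := by
      by_cases hRt' : R = t
      · simp only [hER, hRt', if_true]
        rw [S.dv_self]; omega
      · have h1 : ER R = z R := by simp [hER, hRt']
        rw [h1]
        by_contra hc
        push Not at hc
        have hl := (hV R (by omega) (by omega))
        have h2 := S.level (W R) V (x R) (z R) hl.1 (hz _) hc
        have h3 := hl.2 R (by omega) (by omega)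
        have h4 := H.p1a R (by omega)
        omega
    by_cases hLR' : L = R
    · subst hLR'
      have t1 := S.dv_tri V (x s) (EL L) (x t)
      have t2 := S.dv_tri V (EL L) (x L) (x t)
      have t3 := S.dv_tri V (x L) (ER L) (x t)
      have s1 := S.dv_symm V (x L) (EL L)
      have s2 := S.dv_symm V (x t) (ER L)
      omega
    -- choose the top level rotation in the gap
    obtain ⟨i, hi1, himax⟩ := Finset.exists_max_image (Finset.Ico L R) Lev
      ⟨L, by simp; omega⟩
    rw [Finset.mem_Ico] at hi1
    have hmax : ∀ j, L ≤ j → j < R → Lev j ≤ Lev i := fun j h1 h2 =>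
      himax j (Finset.mem_Ico.2 ⟨h1, h2⟩)
    have hik : i < k := by omega
    -- the two parts of the gap project to small sets on W i
    have hl1 : S.dv (W i) (x L) (x i) ≤ 6 * S.θ := by
      refine IH (i - L) (by omega) L i (W i) rfl (by omega) (by omega) ?_
      intro j h1 h2
      refine ⟨fun h => ?_, fun r h3 h4 => ?_⟩
      · have := H.p2 j (by omega) i hik h
        omega
      · have := H.p1 i hik r (by omega)
        have := hmax j h1 (by omega)
        omega
    have hl2 : S.dv (W i) (x (i + 1)) (x R) ≤ 6 * S.θ := by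
      refine IH (R - (i + 1)) (by omega) (i + 1) R (W i) rfl (by omega) (by omega) ?_
      intro j h1 h2
      refine ⟨fun h => ?_, fun r h3 h4 => ?_⟩
      · have := H.p2 j (by omega) i hik h
        omega
      · have := H.p1 i hik r (by omega)
        have := hmax j (by omega) (by omega)
        omega
    have hp3 := H.p3 i hik
    have hWV : W i ≠ V := (hV i (by omega) (by omega)).1
    by_cases hα : 5 * S.θ < S.dv (W i) (EL L) (ER R)
    · -- large angle: locate V
      have c1 : S.dv (W i) (x s) (EL L) ≤ S.θ := by
        by_cases hLs : L = s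
        · simp only [hEL, hLs, if_true]
          rw [S.dv_self]; omega
        · have h1 : EL L = z (L - 1) := by simp [hEL, hLs]
          by_contra hc
          have hne : W i ≠ W (L - 1) := fun h => by
            have := H.p2 i hik (L - 1) (by omega) h
            omega
          have b1 := S.beh (p := x s) hne (hz i) (hz (L - 1))
          have b2 := S.beh (p := ER R) hne (hz i) (hz (L - 1))
          rw [h1] at hc hα
          have s1 := S.dv_symm (W i) (z (L - 1)) (ER R)
          have b1' : S.dv (W (L - 1)) (x s) (z i) ≤ S.θ := by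
            rcases b1 with b | b
            · exact absurd b hc
            · exact b
          have b2' : S.dv (W (L - 1)) (ER R) (z i) ≤ S.θ := by
            rcases b2 with b | b
            · omega
            · exact b
          have b3 := hiiiL (by omega)
          have t1 := S.dv_tri (W (L - 1)) (x s) (z i) (x t)
          have t2 := S.dv_tri (W (L - 1)) (z i) (ER R) (x t)
          have s2 := S.dv_symm (W (L - 1)) (z i) (ER R)
          have s3 := S.dv_symm (W (L - 1)) (x t) (ER R)
          rcases hi with hi | hi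
          · exact hLs hi
          · omega
      have c2 : S.dv (W i) (x t) (ER R) ≤ S.θ := by
        by_cases hRt' : R = t
        · simp only [hER, hRt', if_true]
          rw [S.dv_self]; omega
        · have h1 : ER R = z R := by simp [hER, hRt']
          by_contra hc
          have hne : W i ≠ W R := fun h => by
            have := H.p2 i hik R (by omega) h
            omega
          have b1 := S.beh (p := x t) hne (hz i) (hz R)
          have b2 := S.beh (p := EL L) hne (hz i) (hz R)
          rw [h1] at hc hα
          have b1' : S.dv (W R) (x t) (z i) ≤ S.θ := by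
            rcases b1 with b | b
            · exact absurd b hc
            · exact b
          have b2' : S.dv (W R) (EL L) (z i) ≤ S.θ := by
            rcases b2 with b | b
            · omega
            · exact b
          have b3 := hiiiR (by omega)
          have t1 := S.dv_tri (W R) (x s) (EL L) (x t)
          have t2 := S.dv_tri (W R) (EL L) (z i) (x t)
          have s3 := S.dv_symm (W R) (x t) (z i)
          rcases hii with hii | hii
          · exact hRt' hii
          · omega
      have t1 := S.dv_tri (W i) (EL L) (x s) (ER R)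
      have t2 := S.dv_tri (W i) (x s) (x t) (ER R)
      have s1 := S.dv_symm (W i) (EL L) (x s)
      have hang : 3 * S.θ < S.dv (W i) (x s) (x t) := by omega
      have b1 := S.beh (p := x s) hWV (hz i) hzV
      have b2 := S.beh (p := x t) hWV (hz i) hzV
      have hER' : ER i = z i := by simp [hER]; omega
      have hEL' : EL (i + 1) = z i := by
        have : i + 1 ≠ s := by omega
        simp [hEL, this]
      by_cases hside : S.dv V (x s) (z i) ≤ S.θ
      · -- V is to the right of W i
        refine IH2 (R - (i + 1)) (by omega) (i + 1) R rfl (by omega) (by omega) hRt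
          (Or.inr (by simpa using hang)) hii ?_ ?_ ?_ hivR
        · intro _
          simpa using c2
        · intro hR'
          rw [hEL']
          have hne : W i ≠ W R := fun h => by
            have := H.p2 i hik R (by omega) h
            omega
          have h1 : ER R = z R := by
            have : R ≠ t := by omega
            simp [hER, this]
          have b3 := S.beh (p := x s) hne (hz i) (hz R)
          rw [h1] at hα c2 t1 t2
          rcases b3 with b | b
          · omega
          · exact b
        · rw [hEL']; exact hside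
      · -- V is to the left of W i
        have b1' : S.dv (W i) (x s) zV ≤ S.θ := by
          rcases b1 with b | b
          · exact b
          · exact absurd b hside
        have t3 := S.dv_tri (W i) (x s) zV (x t)
        have s3 := S.dv_symm (W i) (x t) zV
        have b2' : S.dv V (x t) (z i) ≤ S.θ := by
          rcases b2 with b | b
          · omega
          · exact b
        refine IH2 (i - L) (by omega) L i rfl hsL (by omega) (by omega)
          hi (Or.inr (by simpa using hang)) ?_ ?_ hivL ?_
        · intro hL'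
          rw [hER']
          have hne : W i ≠ W (L - 1) := fun h => by
            have := H.p2 i hik (L - 1) (by omega) h
            omega
          have h1 : EL L = z (L - 1) := by
            have : L ≠ s := by omega
            simp [hEL, this]
          have b3 := S.beh (p := x t) hne (hz i) (hz (L - 1))
          rw [h1] at hα c1 t1
          have t4 := S.dv_tri (W i) (z (L - 1)) (x t) (ER R)
          have s4 := S.dv_symm (W i) (z (L - 1)) (x t)
          rcases b3 with b | b
          · omega
          · exact b
        · intro _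
          exact c1
        · rw [hER']; exact b2'
    · -- small angle
      have q1 : 2 * S.dv (W i) (x L) (EL L) ≤ S.τ + 2 * S.θ := by
        by_cases hLs : L = s
        · simp only [hEL, hLs, if_true]
          rw [S.dv_self]; omega
        · have h1 : EL L = z (L - 1) := by simp [hEL, hLs]
          rw [h1]
          have := H.p4l i hik (L - 1) (by omega) (z (L - 1)) (hz _)
          have h5 : L - 1 + 1 = L := by omega
          rwa [h5] at this
      have q2 : 2 * S.dv (W i) (x R) (ER R) ≤ S.τ + 2 * S.θ := by
        by_cases hRt' : R = t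
        · simp only [hER, hRt', if_true]
          rw [S.dv_self]; omega
        · have h1 : ER R = z R := by simp [hER, hRt']
          rw [h1]
          exact H.p4r R (by omega) i (by omega) (z R) (hz _)
      have t1 := S.dv_tri (W i) (x i) (x L) (x (i + 1))
      have t2 := S.dv_tri (W i) (x L) (EL L) (x (i + 1))
      have t3 := S.dv_tri (W i) (EL L) (ER R) (x (i + 1))
      have t4 := S.dv_tri (W i) (ER R) (x R) (x (i + 1))
      have s1 := S.dv_symm (W i) (x i) (x L)
      have s2 := S.dv_symm (W i) (x R) (x (i + 1))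
      have s3 := S.dv_symm (W i) (x R) (ER R)
      -- both sides are far
      have f1 : 2 * S.θ < S.dv (W i) (x L) (EL L) := by omega
      have f2 : 2 * S.θ < S.dv (W i) (x R) (ER R) := by omega
      have g1 : S.dv V (EL L) (z i) ≤ 2 * S.θ := by
        have b1 := S.beh (p := x L) hWV (hz i) hzV
        have b2 := S.beh (p := EL L) hWV (hz i) hzV
        have u1 := S.dv_tri (W i) (x L) zV (EL L)
        have u2 := S.dv_symm (W i) zV (EL L)
        have u3 := S.dv_tri V (EL L) (x L) (z i)
        have u4 := S.dv_symm V (x L) (EL L)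
        rcases b1 with b1 | b1
        · rcases b2 with b2 | b2
          · omega
          · omega
        · omega
      have g2 : S.dv V (ER R) (z i) ≤ 2 * S.θ := by
        have b1 := S.beh (p := x R) hWV (hz i) hzV
        have b2 := S.beh (p := ER R) hWV (hz i) hzV
        have u1 := S.dv_tri (W i) (x R) zV (ER R)
        have u2 := S.dv_symm (W i) zV (ER R)
        have u3 := S.dv_tri V (ER R) (x R) (z i)
        have u4 := S.dv_symm V (x R) (ER R)
        rcases b1 with b1 | b1
        · rcases b2 with b2 | b2
          · omega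
          · omega
        · omega
      have v1 := S.dv_tri V (x s) (EL L) (x t)
      have v2 := S.dv_tri V (EL L) (z i) (x t)
      have v3 := S.dv_tri V (z i) (ER R) (x t)
      have v4 := S.dv_symm V (z i) (ER R)
      have v5 := S.dv_symm V (x t) (ER R)
      omega
  refine key (t - s) s t rfl le_rfl hst le_rfl (Or.inl rfl) (Or.inl rfl)
    (fun h => absurd h (lt_irrefl _)) (fun h => absurd h (lt_irrefl _)) ?_ ?_
  · simp only [hEL, if_true]; rw [S.dv_self]; omega
  · simp only [hER, if_true]; rw [S.dv_self]; omega

/-- a nonempty reduced sequence rotates a lot around some axis -/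
theorem Seq.turn {k : ℕ} {x : ℕ → P} {W : ℕ → Y} {Lev : ℕ → ℕ} (H : S.Seq k x W Lev)
    (hk : 0 < k) : ∃ v, S.τ ≤ S.dv v (x 0) (x k) + 12 * S.θ := by
  obtain ⟨i, hi1, himax⟩ := Finset.exists_max_image (Finset.range k) Lev
      ⟨0, by simp; omega⟩
  rw [Finset.mem_range] at hi1
  have hmax : ∀ j, j < k → Lev j ≤ Lev i := fun j h2 =>
      himax j (Finset.mem_range.2 h2)
  refine ⟨W i, ?_⟩
  have hl1 : S.dv (W i) (x 0) (x i) ≤ 6 * S.θ := by
    refine H.small i 0 i (W i) (by omega) (by omega) (by omega) ?_
    intro j h1 h2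
    refine ⟨fun h => ?_, fun r h3 h4 => ?_⟩
    · have := H.p2 j (by omega) i hi1 h
      omega
    · have := H.p1 i hi1 r (by omega)
      have := hmax j (by omega)
      omega
  have hl2 : S.dv (W i) (x (i + 1)) (x k) ≤ 6 * S.θ := by
    refine H.small (k - (i + 1)) (i + 1) k (W i) rfl (by omega) (by omega) ?_
    intro j h1 h2
    refine ⟨fun h => ?_, fun r h3 h4 => ?_⟩
    · have := H.p2 j (by omega) i hi1 h
      omega
    · have := H.p1 i hi1 r (by omega)
      have := hmax j (by omega)
      omega
  have hp3 := H.p3 i hi1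
  have t1 := S.dv_tri (W i) (x i) (x 0) (x (i + 1))
  have t2 := S.dv_tri (W i) (x 0) (x k) (x (i + 1))
  have s1 := S.dv_symm (W i) (x i) (x 0)
  have s2 := S.dv_symm (W i) (x k) (x (i + 1))
  omega

/-! ## Words of rotations -/

/-- product of a word of rotations -/
def prd (l : List (G × Y)) : G := (l.map Prod.fst).prod

omit [MulAction G Y] in
theorem prd_append (a b : List (G × Y)) : prd (a ++ b) = prd a * prd b := by
  simp [prd]

omit [MulAction G Y] in
theorem prd_cons (c : G × Y) (b : List (G × Y)) : prd (c :: b) = c.1 * prd b := by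
  simp [prd]

omit [MulAction G Y] in
theorem prd_nil : prd ([] : List (G × Y)) = 1 := by simp [prd]

/-- valid words: every letter fixes its axis -/
def Valid (l : List (G × Y)) : Prop := ∀ c ∈ l, c.1 • c.2 = c.2

variable (S) in
/-- weight of a word -/
def wt (p : P) (l : List (G × Y)) : ℕ := (l.map fun c => 3 ^ S.D p c.2).sum

theorem wt_append (p : P) (a b : List (G × Y)) : S.wt p (a ++ b) = S.wt p a + S.wt p b := by
  simp [wt]

theorem wt_cons (p : P) (c : G × Y) (b : List (G × Y)) :
    S.wt p (c :: b) = 3 ^ S.D p c.2 + S.wt p b := by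
  simp [wt]

variable (S) in
/-- minimal words -/
def Mn (p : P) (l : List (G × Y)) : Prop :=
  Valid l ∧ ∀ l', Valid l' → prd l' = prd l → S.wt p l ≤ S.wt p l'

theorem valid_append {a b : List (G × Y)} : Valid (a ++ b) ↔ Valid a ∧ Valid b := by
  simp [Valid, or_imp, forall_and]

theorem valid_cons {c : G × Y} {b : List (G × Y)} :
    Valid (c :: b) ↔ c.1 • c.2 = c.2 ∧ Valid b := by
  simp [Valid]

theorem three_pow_lt {a b c : ℕ} (h1 : a < c) (h2 : b < c) : 3 ^ a + 3 ^ b < 3 ^ c := by
  have h3 : 3 ^ a ≤ 3 ^ (c - 1) := Nat.pow_le_pow_right (by norm_num) (by omega)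
  have h4 : 3 ^ b ≤ 3 ^ (c - 1) := Nat.pow_le_pow_right (by norm_num) (by omega)
  have h5 : 3 ^ c = 3 * 3 ^ (c - 1) := by
    conv_lhs => rw [show c = (c - 1) + 1 by omega, pow_succ]
    ring
  have h6 : 0 < 3 ^ (c - 1) := by positivity
  omega

theorem le_of_pow_le {a b : ℕ} (h : 3 ^ a ≤ 3 ^ b) : a ≤ b :=
  (Nat.pow_le_pow_iff_right (by norm_num)).1 h

theorem Mn.a {p : P} {a b e : List (G × Y)} {c : G × Y} (h : S.Mn p (a ++ b ++ c :: e)) :
    S.D p c.2 ≤ S.D p (prd b • c.2) := by
  have hv := h.1
  rw [valid_append, valid_append, valid_cons] at hv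
  have h1 := h.2 (a ++ (prd b * c.1 * (prd b)⁻¹, prd b • c.2) :: (b ++ e)) ?_ ?_
  · simp only [wt_append, wt_cons] at h1
    apply le_of_pow_le
    omega
  · rw [valid_append, valid_cons, valid_append]
    refine ⟨hv.1.1, ?_, hv.1.2, hv.2.2⟩
    simp only
    rw [mul_smul, mul_smul, inv_smul_smul, hv.2.1]
  · simp only [prd_append, prd_cons]; group

theorem Mn.b {p : P} {a b e : List (G × Y)} {c : G × Y} (h : S.Mn p (a ++ c :: (b ++ e))) :
    S.D p c.2 ≤ S.D p ((prd b)⁻¹ • c.2) := by
  have hv := h.1
  rw [valid_append, valid_cons, valid_append] at hv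
  have h1 := h.2 (a ++ b ++ ((prd b)⁻¹ * c.1 * prd b, (prd b)⁻¹ • c.2) :: e) ?_ ?_
  · simp only [wt_append, wt_cons] at h1
    apply le_of_pow_le
    omega
  · rw [valid_append, valid_cons, valid_append]
    refine ⟨⟨hv.1, hv.2.2.1⟩, ?_, hv.2.2.2⟩
    simp only
    rw [mul_smul, mul_smul, smul_inv_smul, hv.2.1]
  · simp only [prd_append, prd_cons]; group

theorem Mn.c {p : P} {a b e : List (G × Y)} {c c' : G × Y}
    (h : S.Mn p (a ++ c :: (b ++ c' :: e))) : c.2 ≠ prd b • c'.2 := by
  intro hc
  have hv := h.1
  rw [valid_append, valid_cons, valid_append, valid_cons] at hv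
  have h1 := h.2 (a ++ (c.1 * (prd b * c'.1 * (prd b)⁻¹), c.2) :: (b ++ e)) ?_ ?_
  · simp only [wt_append, wt_cons] at h1
    have : 0 < 3 ^ S.D p c'.2 := by positivity
    omega
  · rw [valid_append, valid_cons, valid_append]
    refine ⟨hv.1, ?_, hv.2.2.1, hv.2.2.2.2⟩
    simp only
    rw [mul_smul, hc, mul_smul, mul_smul, inv_smul_smul, hv.2.2.2.1, ← hc, hv.2.1]
  · simp only [prd_append, prd_cons]; group

theorem Mn.d {p : P} {a e : List (G × Y)} {c : G × Y} (h : S.Mn p (a ++ c :: e)) :
    c.1 ≠ 1 := by
  intro hc
  have hv := h.1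
  rw [valid_append, valid_cons] at hv
  have h1 := h.2 (a ++ e) ?_ ?_
  · simp only [wt_append, wt_cons] at h1
    have : 0 < 3 ^ S.D p c.2 := by positivity
    omega
  · rw [valid_append]; exact ⟨hv.1, hv.2.2⟩
  · simp only [prd_append, prd_cons, hc, one_mul]

theorem Mn.e {p : P} {a b e : List (G × Y)} {c c' : G × Y}
    (h : S.Mn p (a ++ c :: (b ++ c' :: e))) (k : G) (hk : k • prd b • c'.2 = prd b • c'.2)
    (h1 : S.D p (prd b • c'.2) < S.D p c.2) : S.D p c.2 ≤ S.D p (k • c.2) := by
  by_contra hc
  push Not at hc
  have hv := h.1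
  rw [valid_append, valid_cons, valid_append, valid_cons] at hv
  have h2 := h.2 (a ++ (k⁻¹, prd b • c'.2) :: (k * c.1 * k⁻¹, k • c.2) ::
    (b ++ ((prd b)⁻¹ * k * prd b * c'.1, c'.2) :: e)) ?_ ?_
  · simp only [wt_append, wt_cons] at h2
    have := three_pow_lt h1 hc
    omega
  · simp only [valid_append, valid_cons]
    refine ⟨hv.1, ?_, ?_, hv.2.2.1, ?_, hv.2.2.2.2⟩
    · rw [inv_smul_eq_iff, hk]
    · rw [mul_smul, mul_smul, inv_smul_smul, hv.2.1]
    · rw [mul_smul, hv.2.2.2.1, mul_smul, mul_smul, hk, inv_smul_smul]
  · simp only [prd_append, prd_cons]; group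

theorem Mn.f {p : P} {a b e : List (G × Y)} {c c' : G × Y}
    (h : S.Mn p (a ++ c :: (b ++ c' :: e))) (k : G) (hk : k • (prd b)⁻¹ • c.2 = (prd b)⁻¹ • c.2)
    (h1 : S.D p ((prd b)⁻¹ • c.2) < S.D p c'.2) : S.D p c'.2 ≤ S.D p (k • c'.2) := by
  by_contra hc
  push Not at hc
  have hv := h.1
  rw [valid_append, valid_cons, valid_append, valid_cons] at hv
  have h2 := h.2 (a ++ (c.1 * (prd b * k⁻¹ * (prd b)⁻¹), c.2) ::
    (b ++ (k * c'.1 * k⁻¹, k • c'.2) :: (k, (prd b)⁻¹ • c.2) :: e)) ?_ ?_
  · simp only [wt_append, wt_cons] at h2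
    have := three_pow_lt h1 hc
    omega
  · simp only [valid_append, valid_cons]
    refine ⟨hv.1, ?_, hv.2.2.1, ?_, hk, hv.2.2.2.2⟩
    · rw [mul_smul, mul_smul, mul_smul]
      rw [inv_smul_eq_iff.2 hk.symm, smul_inv_smul, hv.2.1]
    · rw [mul_smul, mul_smul, inv_smul_smul, hv.2.2.2.1]
  · simp only [prd_append, prd_cons]; group

/-- prefix products -/
def pre (l : List (G × Y)) (i : ℕ) : G := prd (l.take i)

omit [Group G] [MulAction G Y] in
theorem slice {l : List (G × Y)} {r i : ℕ} (h : r ≤ i) :
    l = l.take r ++ ((l.drop r).take (i - r) ++ l.drop i) := by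
  conv_lhs => rw [← List.take_append_drop r l, ← List.take_append_drop (i - r) (l.drop r)]
  rw [List.drop_drop]
  congr 3
  omega

omit [MulAction G Y] in
theorem pre_slice {l : List (G × Y)} {r i : ℕ} (h : r ≤ i) :
    pre l i = pre l r * prd ((l.drop r).take (i - r)) := by
  unfold pre
  rw [← prd_append]
  congr 1
  have h1 : i = r + (i - r) := by omega
  conv_lhs => rw [h1, List.take_add]

omit [MulAction G Y] in
theorem pre_succ {l : List (G × Y)} {i : ℕ} (hi : i < l.length) :
    pre l (i + 1) = pre l i * l[i].1 := by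
  unfold pre
  rw [List.take_succ_eq_append_getElem hi, prd_append, prd_cons, prd_nil, mul_one]

theorem Mn.seq {p : P} {l : List (G × Y)} (h : S.Mn p l) (hl : 0 < l.length) :
    ∃ (x : ℕ → P) (W : ℕ → Y) (Lev : ℕ → ℕ), S.Seq l.length x W Lev ∧ x 0 = p ∧
      x l.length = prd l • p := by
  classical
  have y0 : Y := l[0].2
  set v : ℕ → Y := fun i => if hi : i < l.length then l[i].2 else y0 with hvdef
  set x : ℕ → P := fun i => pre l i • p with hx
  set W : ℕ → Y := fun i => pre l i • v i with hW
  have hvi : ∀ i (hi : i < l.length), v i = l[i].2 := fun i hi => by simp [hvdef, hi]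
  have hfix : ∀ i (hi : i < l.length), l[i].1 • l[i].2 = l[i].2 := fun i hi =>
    h.1 _ (List.getElem_mem hi)
  have hW' : ∀ i < l.length, W i = pre l (i + 1) • v i := fun i hi => by
    simp only [hW]
    rw [pre_succ hi, mul_smul, hvi i hi, hfix i hi]
  -- conversions
  have hcancel : ∀ (r i : ℕ) (g : G), pre l i = pre l r * g → ∀ y : Y,
      S.D (x r) (pre l i • y) = S.D p (g • y) := fun r i g hg y => by
    simp only [hx]
    rw [hg, mul_smul, S.D_smul]
  have hdecomp1 : ∀ i r, r ≤ i → ∀ hi : i < l.length,
      l = l.take r ++ (l.drop r).take (i - r) ++ l[i] :: l.drop (i + 1) := by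
    intro i r hri hi
    have := slice (l := l) hri
    rw [List.drop_eq_getElem_cons hi] at this
    simpa using this
  have hdecomp2 : ∀ i j, (hji : j < i) → ∀ hi : i < l.length,
      l = l.take j ++ l[j]'(by omega) :: ((l.drop (j + 1)).take (i - (j + 1)) ++
        l[i] :: l.drop (i + 1)) := by
    intro i j hji hi
    have h1 := slice (l := l) (show j + 1 ≤ i by omega)
    rw [List.drop_eq_getElem_cons hi] at h1
    rw [List.take_succ_eq_append_getElem (show j < l.length by omega), List.append_assoc] at h1
    exact h1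
  have hseq : S.Seq l.length x W (fun i => S.D p (v i)) := by
    constructor
    · -- p1
      intro i hi r hr
      by_cases hri : r ≤ i
      · have h1 := hdecomp1 i r hri hi
        have h2 := pre_slice (l := l) hri
        have h3 : S.D (x r) (W i) = S.D p (prd ((l.drop r).take (i - r)) • v i) :=
          hcancel r i _ h2 _
        rw [h3, hvi i hi]
        have h4 : S.Mn p (l.take r ++ (l.drop r).take (i - r) ++ l[i] :: l.drop (i + 1)) := by
          rw [← h1]; exact h
        exact h4.a
      · push Not at hri
        have h1 : l = l.take i ++ l[i] :: ((l.drop (i + 1)).take (r - (i + 1)) ++ l.drop r) := by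
          have h1 := slice (l := l) (show i + 1 ≤ r by omega)
          rw [List.take_succ_eq_append_getElem hi, List.append_assoc] at h1
          exact h1
        have h2 := pre_slice (l := l) (show i + 1 ≤ r by omega)
        have h3 : S.D (x r) (W i) =
            S.D p ((prd ((l.drop (i + 1)).take (r - (i + 1))))⁻¹ • v i) := by
          rw [hW' i hi]
          refine hcancel r (i + 1) _ ?_ _
          rw [h2]; group
        rw [h3, hvi i hi]
        have h4 : S.Mn p (l.take i ++ l[i] :: ((l.drop (i + 1)).take (r - (i + 1)) ++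
            l.drop r)) := by
          rw [← h1]; exact h
        exact h4.b
    · intro i hi
      simp only [hx, hW]
      rw [S.D_smul]
    · intro i hi
      rw [hW' i hi]
      simp only [hx]
      rw [S.D_smul]
    · -- p2
      have hlt : ∀ i j, j < i → i < l.length → W j ≠ W i := by
        intro i j hji hi hWW
        have h1 := hdecomp2 i j hji hi
        have h2 := pre_slice (l := l) (show j + 1 ≤ i by omega)
        have h4 : S.Mn p (l.take j ++ l[j]'(by omega) :: ((l.drop (j + 1)).take (i - (j + 1)) ++
            l[i] :: l.drop (i + 1))) := by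
          rw [← h1]; exact h
        apply h4.c
        rw [hW' j (by omega)] at hWW
        simp only [hW] at hWW
        rw [h2, mul_smul] at hWW
        have h5 := smul_left_cancel _ hWW
        rw [hvi i hi, hvi j (by omega)] at h5
        exact h5
      intro i hi j hj hWW
      rcases lt_trichotomy i j with h1 | h1 | h1
      · exact absurd hWW (hlt j i h1 hj)
      · exact h1
      · exact absurd hWW.symm (hlt i j h1 hi)
    · -- p3
      intro i hi
      have h1 : l = l.take i ++ l[i] :: l.drop (i + 1) := by
        have := hdecomp1 i i le_rfl hi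
        simpa using this
      have h4 : S.Mn p (l.take i ++ l[i] :: l.drop (i + 1)) := by
        rw [← h1]; exact h
      have h5 := h4.d
      have h6 : S.dv (W i) (x i) (x (i + 1)) = S.dv (v i) p (l[i].1 • p) := by
        simp only [hW, hx]
        rw [pre_succ hi, mul_smul, S.dv_smul]
      rw [h6]
      exact S.spin _ _ _ (by rw [hvi i hi]; exact hfix i hi) h5
    · -- p4l
      intro i hi j hj z hz
      by_contra hc
      push Not at hc
      have h1 := hdecomp2 i j hj hi
      have h2 := pre_slice (l := l) (show j + 1 ≤ i by omega)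
      set b := (l.drop (j + 1)).take (i - (j + 1)) with hbdef
      have h4 : S.Mn p (l.take j ++ l[j]'(by omega) :: (b ++
            l[i] :: l.drop (i + 1))) := by
          rw [← h1]; exact h
      have hne : W j ≠ W i := by
        intro hWW
        apply h4.c
        rw [hW' j (by omega)] at hWW
        simp only [hW] at hWW
        rw [h2, mul_smul] at hWW
        have h5 := smul_left_cancel _ hWW
        rw [hvi i hi, hvi j (by omega)] at h5
        exact h5
      have hbig := S.big
      have hlev := S.level (W j) (W i) (x (j + 1)) z hne hz (by omega)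
      obtain ⟨k, hk1, hk2⟩ := S.rot (W j) (W i) (x (j + 1)) z hne hz hc
      have e1 : W i = pre l (j + 1) • prd b • l[i].2 := by
        simp only [hW]; rw [h2, mul_smul, hvi i hi]
      have e2 : W j = pre l (j + 1) • (l[j]'(by omega)).2 := by
        rw [hW' j (by omega), hvi j (by omega)]
      set g := pre l (j + 1) with hg
      have e3 : S.D (x (j + 1)) (W i) = S.D p (prd b • l[i].2) := by
        rw [e1]; simp only [hx]; rw [S.D_smul]
      have e4 : S.D (x (j + 1)) (W j) = S.D p (l[j]'(by omega)).2 := by
        rw [e2]; simp only [hx]; rw [S.D_smul]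
      have e5 : S.D (x (j + 1)) (k • W j) = S.D p ((g⁻¹ * k * g) • (l[j]'(by omega)).2) := by
        rw [e2]
        simp only [hx]
        rw [← S.D_smul g p, ← mul_smul g, ← mul_smul k]
        congr 2
        group
      have := h4.e (g⁻¹ * k * g) (by
        rw [mul_smul, mul_smul, ← e1, hk1, e1, inv_smul_smul]) (by rw [← e3, ← e4]; exact hlev)
      rw [← e4, ← e5] at this
      omega
    · -- p4r
      intro i hi j hj z hz
      by_contra hc
      push Not at hc
      have h1 := hdecomp2 i j hj hi
      have h2 := pre_slice (l := l) (show j + 1 ≤ i by omega)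
      set b := (l.drop (j + 1)).take (i - (j + 1)) with hbdef
      have h4 : S.Mn p (l.take j ++ l[j]'(by omega) :: (b ++
            l[i] :: l.drop (i + 1))) := by
          rw [← h1]; exact h
      have hne : W i ≠ W j := by
        intro hWW
        apply h4.c
        rw [hW' j (by omega)] at hWW
        simp only [hW] at hWW
        rw [h2, mul_smul] at hWW
        have h5 := smul_left_cancel _ hWW
        rw [hvi i hi, hvi j (by omega)] at h5
        exact h5.symm
      have hbig := S.big
      have hlev := S.level (W i) (W j) (x i) z hne hz (by omega)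
      obtain ⟨k, hk1, hk2⟩ := S.rot (W i) (W j) (x i) z hne hz hc
      have e1 : W j = pre l i • (prd b)⁻¹ • (l[j]'(by omega)).2 := by
        rw [hW' j (by omega), hvi j (by omega), h2, mul_smul, smul_inv_smul]
      have e2 : W i = pre l i • l[i].2 := by
        simp only [hW]; rw [hvi i hi]
      set g := pre l i with hg
      have e3 : S.D (x i) (W j) = S.D p ((prd b)⁻¹ • (l[j]'(by omega)).2) := by
        rw [e1]; simp only [hx]; rw [S.D_smul]
      have e4 : S.D (x i) (W i) = S.D p l[i].2 := by
        rw [e2]; simp only [hx]; rw [S.D_smul]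
      have e5 : S.D (x i) (k • W i) = S.D p ((g⁻¹ * k * g) • l[i].2) := by
        rw [e2]
        simp only [hx]
        rw [← S.D_smul g p, ← mul_smul g, ← mul_smul k]
        congr 2
        group
      have := h4.f (g⁻¹ * k * g) (by
        rw [mul_smul, mul_smul, ← e1, hk1, e1, inv_smul_smul]) (by rw [← e3, ← e4]; exact hlev)
      rw [← e4, ← e5] at this
      omega
  refine ⟨x, W, _, hseq, ?_, ?_⟩
  · simp [hx, pre, prd]
  · simp [hx, pre]

variable (S) in
/-- **Greendlinger lemma for spinning families.** -/
theorem main (n : G) (hn : n ∈ ⨆ v : Y, MulAction.stabilizer G v) (hn1 : n ≠ 1) (p : P) :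
    ∃ v, S.τ ≤ S.dv v p (n • p) + 12 * S.θ := by
  classical
  have hex : ∃ l : List (G × Y), Valid l ∧ prd l = n := by
    refine Subgroup.iSup_induction (fun v : Y => MulAction.stabilizer G v)
      (C := fun n => ∃ l : List (G × Y), Valid l ∧ prd l = n) hn ?_ ?_ ?_
    · intro v g hg
      exact ⟨[(g, v)], by simpa [Valid] using hg, by simp [prd]⟩
    · exact ⟨[], by simp [Valid], by simp [prd]⟩
    · rintro a b ⟨l, h1, h2⟩ ⟨l', h3, h4⟩
      exact ⟨l ++ l', valid_append.2 ⟨h1, h3⟩, by rw [prd_append, h2, h4]⟩
  have hex2 : ∃ w : ℕ, ∃ l : List (G × Y), Valid l ∧ prd l = n ∧ S.wt p l = w := by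
    obtain ⟨l, h1, h2⟩ := hex
    exact ⟨_, l, h1, h2, rfl⟩
  obtain ⟨l, h1, h2, h3⟩ := Nat.find_spec hex2
  have hmn : S.Mn p l := by
    refine ⟨h1, fun l' h4 h5 => ?_⟩
    rw [h3]
    exact Nat.find_min' hex2 ⟨l', h4, by rw [h5, h2], rfl⟩
  have hl : 0 < l.length := by
    rcases Nat.eq_zero_or_pos l.length with h | h
    · rw [List.length_eq_zero_iff] at h
      subst h
      rw [prd_nil] at h2
      exact absurd h2.symm hn1
    · exact h
  obtain ⟨x, W, Lev, hs, h5, h6⟩ := hmn.seq hl
  obtain ⟨v, hv⟩ := hs.turn hl
  rw [h5, h6, h2] at hv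
  exact ⟨v, hv⟩

end Spin

end Pool.Agent.Helper93.ML
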