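import Mathlib
import Pool.Agent.Helper93.ML.Defs
import Pool.Agent.Helper93.ML.Geo
import Pool.Agent.Helper93.ML.MarkLemmas
import Pool.Agent.Helper93.ML.Spin

/-!
# Small cancellation families of periodic lines in a hyperbolic marked group
-/

namespace Pool.Agent.Helper93.ML

variable {G : Type} [Group G] {M : Mark G} {ι : Type}

namespace Mark

variable (M)

theorem line_eq (R : List Ltr) (hR : 0 < R.length) (q : ℤ) (r : ℕ) (hr : r ≤ R.length) :
    M.line R (q * R.length + r) = (M.ev R) ^ q * M.ev (R.take r) := by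
  have hpos : (0 : ℤ) < (R.length : ℤ) := by exact_mod_cast hR
  unfold line
  rcases lt_or_eq_of_le hr with h | h
  · have h1 : (q * R.length + r) / (R.length : ℤ) = q := by
      rw [add_comm, Int.add_mul_ediv_right _ _ hpos.ne', Int.ediv_eq_zero_of_lt (by positivity)
        (by exact_mod_cast h), zero_add]
    have h2 : (q * R.length + r) % (R.length : ℤ) = r := by
      rw [add_comm, Int.add_mul_emod_self_right, Int.emod_eq_of_lt (by positivity)
        (by exact_mod_cast h)]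
    rw [h1, h2]
    simp
  · have h0 : q * R.length + (r : ℤ) = (q + 1) * R.length := by rw [h]; ring
    rw [h0, Int.mul_ediv_cancel _ hpos.ne', Int.mul_emod_left]
    simp [h, zpow_add_one, ev]

theorem line_shift (R : List Ltr) (hR : 0 < R.length) (k i : ℤ) :
    M.line R (i + k * R.length) = (M.ev R) ^ k * M.line R i := by
  have hpos : (0 : ℤ) < (R.length : ℤ) := by exact_mod_cast hR
  unfold line
  rw [Int.add_mul_ediv_right _ _ hpos.ne', Int.add_mul_emod_self_right, ← mul_assoc, ← zpow_add,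
    add_comm k]

theorem line_zero (R : List Ltr) : M.line R 0 = 1 := by
  unfold line
  simp [ev]

theorem line_step (R : List Ltr) (hR : 0 < R.length) (i : ℤ) :
    M.d (M.line R i) (M.line R (i + 1)) ≤ 1 := by
  have hpos : (0 : ℤ) < (R.length : ℤ) := by exact_mod_cast hR
  have h1 : 0 ≤ i % (R.length : ℤ) := Int.emod_nonneg _ hpos.ne'
  have h2 : i % (R.length : ℤ) < R.length := Int.emod_lt_of_pos _ hpos
  obtain ⟨r, hr⟩ := Int.eq_ofNat_of_zero_le h1
  have hi : i = (i / R.length) * R.length + r := by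
    rw [← hr]
    have := Int.mul_ediv_add_emod i (R.length : ℤ)
    linarith
  have hi1 : i + 1 = (i / R.length) * R.length + ((r + 1 : ℕ) : ℤ) := by
    push_cast; linarith
  have hrl : r < R.length := by
    rw [hr] at h2; exact_mod_cast h2
  have e1 := M.line_eq R hR (i / R.length) r hrl.le
  have e2 := M.line_eq R hR (i / R.length) (r + 1) hrl
  rw [← hi] at e1
  rw [← hi1] at e2
  rw [e1, e2, M.d_mul_left]
  have := M.isPath_pth 1 R (r + 1) r (by omega)
  simpa [pth] using this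

end Mark

/-- A family of periodic straight lines. -/
structure Lines {G : Type} [Group G] (M : Mark G) (ι : Type) where
  R : ι → List Ltr
  δ : ℕ
  κ : ℕ
  θ : ℕ
  τ : ℕ
  hyp : Hyp M.d δ
  hκ : δ + 1 ≤ κ
  hθ : 1000 * κ ≤ θ
  hτ : 1000 * θ ≤ τ
  lenR : ∀ w, (R w).length = τ
  str : ∀ w (a b c : ℤ), a ≤ b → b ≤ c →
    M.d (M.line (R w) a) (M.line (R w) b) + M.d (M.line (R w) b) (M.line (R w) c)
      ≤ M.d (M.line (R w) a) (M.line (R w) c) + 2 * κ
  gr : ∀ w (a b : ℤ), a ≤ b → b ≤ a + 4 * τ →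
    b ≤ a + M.d (M.line (R w) a) (M.line (R w) b) + κ
  gr2 : ∀ w (a b : ℤ), a ≤ b →
    b ≤ a + 2 * M.d (M.line (R w) a) (M.line (R w) b) + 2 * κ

namespace Lines

variable (L : Lines M ι)

theorem hR (w : ι) : 0 < (L.R w).length := by
  have h1 := L.lenR w
  have h2 := L.hτ
  have h3 := L.hθ
  have h4 := L.hκ
  omega

/-- the relator -/
def r (w : ι) : G := M.ev (L.R w)

/-- the set of axes -/
abbrev Y : Type := Σ w : ι, G ⧸ Subgroup.zpowers (L.r w)

/-- the parametrised axis -/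
noncomputable def ax (v : L.Y) (i : ℤ) : G := v.2.out * M.line (L.R v.1) i

/-- the rotation around the axis by one period -/
noncomputable def rt (v : L.Y) : G := v.2.out * L.r v.1 * v.2.out⁻¹

theorem ax_shift (v : L.Y) (k i : ℤ) : L.ax v (i + k * L.τ) = L.rt v ^ k * L.ax v i := by
  unfold ax rt
  rw [← L.lenR v.1, M.line_shift _ (L.hR _), conj_zpow]
  unfold r
  group

theorem ax_smul (g : G) (v : L.Y) : ∃ k : ℤ, ∀ i, L.ax (g • v) i = g * L.ax v (i + k * L.τ) := by
  have h1 : (g • v).2 = ((g * v.2.out : G) : G ⧸ Subgroup.zpowers (L.r v.1)) := by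
    conv_lhs => rw [show (g • v).2 = g • v.2 from rfl, ← QuotientGroup.out_eq' v.2]
    rfl
  obtain ⟨h, hh⟩ := QuotientGroup.mk_out_eq_mul (Subgroup.zpowers (L.r v.1)) (g * v.2.out)
  obtain ⟨k, hk⟩ := Subgroup.mem_zpowers_iff.1 h.2
  refine ⟨k, fun i => ?_⟩
  unfold ax
  rw [← L.lenR v.1, M.line_shift _ (L.hR _)]
  have h2 : (g • v).2.out = g * v.2.out * h := by
    rw [← hh, h1]
    rfl
  rw [h2, ← hk]
  change _ * M.line (L.R v.1) i = _
  unfold r
  group

theorem smul_eq_iff (h : G) (v : L.Y) : h • v = v ↔ ∃ k : ℤ, h = L.rt v ^ k := by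
  obtain ⟨w, y⟩ := v
  have h0 : h • (⟨w, y⟩ : L.Y) = ⟨w, h • y⟩ := rfl
  rw [h0, Sigma.mk.injEq]
  simp only [true_and, heq_eq_eq]
  conv_lhs => rw [← QuotientGroup.out_eq' y]
  rw [show h • ((y.out : G) : G ⧸ Subgroup.zpowers (L.r w)) =
    ((h * y.out : G) : G ⧸ Subgroup.zpowers (L.r w)) from rfl, eq_comm, QuotientGroup.eq,
    Subgroup.mem_zpowers_iff]
  unfold rt
  simp only [conj_zpow]
  constructor
  · rintro ⟨k, hk⟩
    refine ⟨k, ?_⟩
    rw [hk]; group
  · rintro ⟨k, hk⟩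
    refine ⟨k, ?_⟩
    rw [hk]; group

theorem rt_zpow_smul (v : L.Y) (k : ℤ) : (L.rt v ^ k) • v = v := (L.smul_eq_iff _ _).2 ⟨k, rfl⟩

theorem ax_step (v : L.Y) (i : ℤ) : M.d (L.ax v i) (L.ax v (i + 1)) ≤ 1 := by
  unfold ax
  rw [M.d_mul_left]
  exact M.line_step _ (L.hR _) i

theorem ax_str (v : L.Y) {a b c : ℤ} (h1 : a ≤ b) (h2 : b ≤ c) :
    M.d (L.ax v a) (L.ax v b) + M.d (L.ax v b) (L.ax v c)
      ≤ M.d (L.ax v a) (L.ax v c) + 2 * L.κ := by
  unfold ax
  simp only [M.d_mul_left]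
  exact L.str _ _ _ _ h1 h2

theorem ax_gr (v : L.Y) {a b : ℤ} (h1 : a ≤ b) (h2 : b ≤ a + 4 * L.τ) :
    b ≤ a + M.d (L.ax v a) (L.ax v b) + L.κ := by
  unfold ax
  simp only [M.d_mul_left]
  exact L.gr _ _ _ h1 h2

theorem ax_gr2 (v : L.Y) {a b : ℤ} (h1 : a ≤ b) :
    b ≤ a + 2 * M.d (L.ax v a) (L.ax v b) + 2 * L.κ := by
  unfold ax
  simp only [M.d_mul_left]
  exact L.gr2 _ _ _ h1

theorem ax_le (v : L.Y) {a b : ℤ} (h1 : a ≤ b) : M.d (L.ax v a) (L.ax v b) + a ≤ b := by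
  obtain ⟨n, rfl⟩ := Int.le.dest h1
  have hp : IsPath M.d (fun i : ℕ => L.ax v (a + i)) n := fun i _ => by
    have := L.ax_step v (a + i)
    simp only
    push_cast
    rw [← add_assoc]
    exact this
  have := M.isGeo.path_le hp 0 n (by omega) le_rfl
  simp only [Nat.cast_zero, add_zero] at this
  omega

/-! ### projections -/

/-- `j` is the least index of a point of the line nearest to `p` -/
def IsPr (M : Mark G) (f : ℤ → G) (p : G) (j : ℤ) : Prop :=
  (∀ i, M.d p (f j) ≤ M.d p (f i)) ∧ ∀ i, M.d p (f i) ≤ M.d p (f j) → j ≤ i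

theorem IsPr.unique {f : ℤ → G} {p : G} {i j : ℤ} (hi : IsPr M f p i) (hj : IsPr M f p j) :
    i = j :=
  le_antisymm (hi.2 j (hj.1 i)) (hj.2 i (hi.1 j))

theorem exists_pr (v : L.Y) (p : G) : ∃ j, IsPr M (L.ax v) p j := by
  classical
  have hex : ∃ m : ℕ, ∃ i : ℤ, M.d p (L.ax v i) = m := ⟨_, 0, rfl⟩
  obtain ⟨i0, hi0⟩ := Nat.find_spec hex
  have hmin : ∀ i, M.d p (L.ax v i0) ≤ M.d p (L.ax v i) := fun i => by
    rw [hi0]; exact Nat.find_min' hex ⟨i, rfl⟩
  have hb : ∃ b : ℤ, ∀ z : ℤ, M.d p (L.ax v z) ≤ M.d p (L.ax v i0) → b ≤ z := by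
    refine ⟨i0 - 4 * M.d p (L.ax v i0) - 2 * L.κ, fun z hz => ?_⟩
    by_contra hc
    have h1 := L.ax_gr2 v (show z ≤ i0 by omega)
    have h2 := M.isGeo.tri (L.ax v z) p (L.ax v i0)
    have h3 := M.isGeo.symm (L.ax v z) p
    omega
  obtain ⟨j, hj1, hj2⟩ := Int.exists_least_of_bdd hb ⟨i0, le_rfl⟩
  refine ⟨j, fun i => le_trans hj1 (hmin i), fun i hi => hj2 i (le_trans hi hj1)⟩

/-- the projection index -/
noncomputable def pr (v : L.Y) (p : G) : ℤ := (L.exists_pr v p).choose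

theorem pr_spec (v : L.Y) (p : G) : IsPr M (L.ax v) p (L.pr v p) := (L.exists_pr v p).choose_spec

theorem pr_min (v : L.Y) (p : G) (i : ℤ) : M.d p (L.ax v (L.pr v p)) ≤ M.d p (L.ax v i) :=
  (L.pr_spec v p).1 i

/-- the foot of the projection -/
noncomputable def foot (v : L.Y) (p : G) : G := L.ax v (L.pr v p)

/-- projection distance -/
noncomputable def dv (v : L.Y) (p q : G) : ℕ := (L.pr v p - L.pr v q).natAbs

/-- distance to the axis -/
noncomputable def D (p : G) (v : L.Y) : ℕ := M.d p (L.foot v p)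

theorem pr_smul (g : G) (v : L.Y) : ∃ k : ℤ, ∀ p, L.pr (g • v) (g * p) = L.pr v p - k * L.τ := by
  obtain ⟨k, hk⟩ := L.ax_smul g v
  refine ⟨k, fun p => ?_⟩
  refine (L.pr_spec (g • v) (g * p)).unique ⟨fun i => ?_, fun i hi => ?_⟩
  · rw [hk, hk, M.d_mul_left, M.d_mul_left]
    rw [sub_add_cancel]
    exact L.pr_min v p _
  · rw [hk, hk, M.d_mul_left, M.d_mul_left, sub_add_cancel] at hi
    have := (L.pr_spec v p).2 _ hi
    linarith

theorem pr_rt (v : L.Y) (k : ℤ) (p : G) : L.pr v (L.rt v ^ k * p) = L.pr v p + k * L.τ := by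
  refine (L.pr_spec v _).unique ⟨fun i => ?_, fun i hi => ?_⟩
  · have e : L.ax v i = L.rt v ^ k * L.ax v (i - k * L.τ) := by
      rw [← L.ax_shift, sub_add_cancel]
    rw [L.ax_shift, e, M.d_mul_left, M.d_mul_left]
    exact L.pr_min v p _
  · have e : L.ax v i = L.rt v ^ k * L.ax v (i - k * L.τ) := by
      rw [← L.ax_shift, sub_add_cancel]
    rw [L.ax_shift, e, M.d_mul_left, M.d_mul_left] at hi
    have := (L.pr_spec v p).2 _ hi
    linarith

theorem foot_rt (v : L.Y) (k : ℤ) (p : G) : L.foot v (L.rt v ^ k * p) = L.rt v ^ k * L.foot v p := by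
  unfold foot
  rw [L.pr_rt, L.ax_shift]

theorem dv_self (v : L.Y) (p : G) : L.dv v p p = 0 := by simp [dv]

theorem dv_symm (v : L.Y) (p q : G) : L.dv v p q = L.dv v q p := by
  unfold dv; omega

theorem dv_tri (v : L.Y) (p q s : G) : L.dv v p s ≤ L.dv v p q + L.dv v q s := by
  unfold dv; omega

theorem dv_smul (g : G) (v : L.Y) (p q : G) : L.dv (g • v) (g * p) (g * q) = L.dv v p q := by
  obtain ⟨k, hk⟩ := L.pr_smul g v
  unfold dv
  rw [hk, hk]
  congr 1
  ring

theorem D_smul (g : G) (p : G) (v : L.Y) : L.D (g * p) (g • v) = L.D p v := by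
  obtain ⟨k, hk⟩ := L.ax_smul g v
  have h1 : ∀ i, M.d (g * p) (L.ax (g • v) i) = M.d p (L.ax v (i + k * L.τ)) := fun i => by
    rw [hk, M.d_mul_left]
  apply le_antisymm
  · unfold D foot
    have := L.pr_min (g • v) (g * p) (L.pr v p - k * L.τ)
    rwa [h1 (L.pr v p - k * L.τ), sub_add_cancel] at this
  · unfold D foot
    rw [h1]
    exact L.pr_min v p _

theorem D_le (p : G) (v : L.Y) (i : ℤ) : L.D p v ≤ M.d p (L.ax v i) := L.pr_min v p i

/-- index distance and distance on an axis -/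
theorem ax_abs (v : L.Y) (i j : ℤ) : (i - j).natAbs ≤ 2 * M.d (L.ax v i) (L.ax v j) + 2 * L.κ := by
  rcases le_total i j with h | h
  · have := L.ax_gr2 v h
    omega
  · have := L.ax_gr2 v h
    have := M.isGeo.symm (L.ax v i) (L.ax v j)
    omega

theorem ax_abs4 (v : L.Y) (i j : ℤ) (hij : (i - j).natAbs ≤ 4 * L.τ) :
    (i - j).natAbs ≤ M.d (L.ax v i) (L.ax v j) + L.κ := by
  rcases le_total i j with h | h
  · have := L.ax_gr v h (by omega)
    omega
  · have := L.ax_gr v h (by omega)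
    have := M.isGeo.symm (L.ax v i) (L.ax v j)
    omega

theorem ax_abs_le (v : L.Y) (i j : ℤ) : M.d (L.ax v i) (L.ax v j) ≤ (i - j).natAbs := by
  rcases le_total i j with h | h
  · have := L.ax_le v h
    omega
  · have := L.ax_le v h
    have := M.isGeo.symm (L.ax v i) (L.ax v j)
    omega

/-- P1: almost orthogonality of the projection -/
theorem proj1 (v : L.Y) (P : G) (i : ℤ) :
    M.d P (L.foot v P) + M.d (L.foot v P) (L.ax v i) ≤ M.d P (L.ax v i) + 8 * L.κ := by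
  have hκ := L.hκ
  set j := L.pr v P with hj
  rcases le_total j i with h | h
  · obtain ⟨n, rfl⟩ := Int.le.dest h
    have hp : IsPath M.d (fun m : ℕ => L.ax v (j + m)) n := fun m _ => by
      have := L.ax_step v (j + m)
      simp only
      push_cast
      rw [← add_assoc]
      exact this
    have hs : Str M.d (fun m : ℕ => L.ax v (j + m)) n L.κ := fun a b c hab hbc _ =>
      L.ax_str v (by omega) (by omega)
    have := proj_start M.isGeo L.hyp hp hs (p := P) (fun m _ => by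
      simpa using L.pr_min v P (j + m))
    simp only [Nat.cast_zero, add_zero] at this
    unfold foot
    rw [← hj]
    omega
  · obtain ⟨n, hn⟩ := Int.le.dest h
    have hi : i = j - n := by omega
    subst hi
    have hp : IsPath M.d (fun m : ℕ => L.ax v (j - m)) n := fun m _ => by
      have := L.ax_step v (j - m - 1)
      have s1 := M.isGeo.symm (L.ax v (j - m)) (L.ax v (j - m - 1))
      simp only
      push_cast
      rw [show j - (m + 1 : ℤ) = j - m - 1 by ring]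
      rw [sub_add_cancel] at this
      omega
    have hs : Str M.d (fun m : ℕ => L.ax v (j - m)) n L.κ := fun a b c hab hbc _ => by
      have := L.ax_str v (show j - (c : ℤ) ≤ j - b by omega) (show j - (b : ℤ) ≤ j - a by omega)
      have s1 := M.isGeo.symm (L.ax v (j - (c : ℤ))) (L.ax v (j - (b : ℤ)))
      have s2 := M.isGeo.symm (L.ax v (j - (b : ℤ))) (L.ax v (j - (a : ℤ)))
      have s3 := M.isGeo.symm (L.ax v (j - (c : ℤ))) (L.ax v (j - (a : ℤ)))
      simp only
      omega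
    have := proj_start M.isGeo L.hyp hp hs (p := P) (fun m _ => by
      simpa using L.pr_min v P (j - m))
    simp only [Nat.cast_zero, sub_zero] at this
    unfold foot
    rw [← hj]
    omega

/-- P2: two far apart projections -/
theorem proj2 (v : L.Y) (P Q : G) (h : 9 * L.κ < M.d (L.foot v P) (L.foot v Q)) :
    M.d P (L.foot v P) + M.d (L.foot v P) (L.foot v Q) + M.d (L.foot v Q) Q
      ≤ M.d P Q + 18 * L.κ := by
  have hκ := L.hκ
  have h1 : M.d P (L.foot v P) + M.d (L.foot v P) (L.foot v Q) ≤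
    M.d P (L.foot v Q) + 8 * L.κ := L.proj1 v P (L.pr v Q)
  have h2 : M.d Q (L.foot v Q) + M.d (L.foot v Q) (L.foot v P) ≤
    M.d Q (L.foot v P) + 8 * L.κ := L.proj1 v Q (L.pr v P)
  have := proj_two M.isGeo L.hyp (C := 8 * L.κ) h1 h2 (by omega)
  omega

/-- if the projection distance is large then so is the distance of the feet -/
theorem foot_abs (v : L.Y) (P Q : G) :
    L.dv v P Q ≤ 2 * M.d (L.foot v P) (L.foot v Q) + 2 * L.κ := L.ax_abs v _ _

theorem foot_abs4 (v : L.Y) (P Q : G) (h : L.dv v P Q ≤ 4 * L.τ) :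
    L.dv v P Q ≤ M.d (L.foot v P) (L.foot v Q) + L.κ := L.ax_abs4 v _ _ h

/-- T3: projections are coarsely Lipschitz -/
theorem dv_le (v : L.Y) (P Q : G) : L.dv v P Q ≤ 2 * M.d P Q + 40 * L.κ := by
  have h1 := L.foot_abs v P Q
  by_cases h : 9 * L.κ < M.d (L.foot v P) (L.foot v Q)
  · have := L.proj2 v P Q h
    omega
  · omega

/-- projection of points of the axis -/
theorem pr_ax (v : L.Y) (i : ℤ) : (L.pr v (L.ax v i) - i).natAbs ≤ L.κ := by
  have h1 := L.pr_min v (L.ax v i) i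
  rw [M.isGeo.self] at h1
  have h2 : M.d (L.ax v i) (L.ax v (L.pr v (L.ax v i))) = 0 := by omega
  have hκ := L.hκ
  have hθ := L.hθ
  have hτ := L.hτ
  have h3 := L.ax_abs v i (L.pr v (L.ax v i))
  have h4 := L.ax_abs4 v i (L.pr v (L.ax v i)) (by omega)
  omega

/-- T4: axis points between the projections are close to a straight path -/
theorem near (v : L.Y) {P Q : G} {f : ℕ → G} {n c : ℕ} (hf : IsPath M.d f n)
    (hs : Str M.d f n c) (h0 : f 0 = P) (hn : f n = Q) (hPQ : 20 * L.κ < L.dv v P Q) {x : ℤ}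
    (hx : (L.pr v P ≤ x ∧ x ≤ L.pr v Q) ∨ (L.pr v Q ≤ x ∧ x ≤ L.pr v P)) :
    ∃ j ≤ n, M.d (L.ax v x) (f j) ≤ 22 * L.κ + 2 * c := by
  have hκ := L.hκ
  have h1 := L.foot_abs v P Q
  have h2 := L.proj2 v P Q (by omega)
  have h3 : M.d (L.foot v P) (L.ax v x) + M.d (L.ax v x) (L.foot v Q) ≤
      M.d (L.foot v P) (L.foot v Q) + 2 * L.κ := by
    rcases hx with hx | hx
    · exact L.ax_str v hx.1 hx.2
    · have := L.ax_str v hx.1 hx.2
      unfold foot
      have s1 := M.isGeo.symm (L.ax v (L.pr v Q)) (L.ax v x)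
      have s2 := M.isGeo.symm (L.ax v x) (L.ax v (L.pr v P))
      have s3 := M.isGeo.symm (L.ax v (L.pr v Q)) (L.ax v (L.pr v P))
      omega
  have t1 := M.isGeo.tri P (L.foot v P) (L.ax v x)
  have t2 := M.isGeo.tri (L.ax v x) (L.foot v Q) Q
  have h4 : M.d (f 0) (L.ax v x) + M.d (L.ax v x) (f n) ≤ M.d (f 0) (f n) + 2 * (10 * L.κ) := by
    rw [h0, hn]; omega
  obtain ⟨j, hj, h5⟩ := near_str M.isGeo L.hyp hf hs h4
  exact ⟨j, hj, by omega⟩

/-- S1: a pair of points with large projection distance can be shortened by a rotation -/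
theorem shorten (v : L.Y) (P Q : G) (h : L.τ + 2 * L.θ < 2 * L.dv v P Q) :
    ∃ k : ℤ, M.d P (L.rt v ^ k * Q) < M.d P Q := by
  have hκ := L.hκ
  have hθ := L.hθ
  have hτ := L.hτ
  have hτ0 : (0 : ℤ) < L.τ := by omega
  -- choose the rotation
  obtain ⟨k, hk⟩ : ∃ k : ℤ, 2 * (L.pr v P - (L.pr v Q + k * L.τ)).natAbs ≤ L.τ := by
    set a := L.pr v P - L.pr v Q with ha
    refine ⟨(2 * a + L.τ) / (2 * L.τ), ?_⟩
    have e1 := Int.mul_ediv_add_emod (2 * a + L.τ) (2 * L.τ)
    have e2 := Int.emod_nonneg (2 * a + L.τ) (show (2 * (L.τ : ℤ)) ≠ 0 by omega)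
    have e3 := Int.emod_lt_of_pos (2 * a + L.τ) (show (0 : ℤ) < 2 * (L.τ : ℤ) by omega)
    set q := (2 * a + L.τ) / (2 * L.τ) with hq
    have e4 : L.pr v P - (L.pr v Q + q * L.τ) = a - q * L.τ := by rw [ha]; ring
    rw [e4]
    have e5 : 2 * (L.τ : ℤ) * q = 2 * (q * L.τ) := by ring
    omega
  refine ⟨k, ?_⟩
  have h1 : M.d P (L.rt v ^ k * Q) ≤ M.d P (L.foot v P) +
      M.d (L.foot v P) (L.foot v (L.rt v ^ k * Q)) + M.d (L.foot v Q) Q := by
    have t1 := M.isGeo.tri P (L.foot v P) (L.rt v ^ k * Q)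
    have t2 := M.isGeo.tri (L.foot v P) (L.foot v (L.rt v ^ k * Q)) (L.rt v ^ k * Q)
    have e : M.d (L.foot v (L.rt v ^ k * Q)) (L.rt v ^ k * Q) = M.d (L.foot v Q) Q := by
      rw [L.foot_rt, M.d_mul_left]
    omega
  have h2 : M.d (L.foot v P) (L.foot v (L.rt v ^ k * Q)) ≤
      (L.pr v P - (L.pr v Q + k * L.τ)).natAbs := by
    unfold foot
    rw [L.pr_rt]
    exact L.ax_abs_le v _ _
  have h3 : L.τ + 2 * L.θ < 2 * (M.d (L.foot v P) (L.foot v Q) + L.κ) := by
    by_cases h4 : L.dv v P Q ≤ 4 * L.τ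
    · have := L.foot_abs4 v P Q h4
      omega
    · have := L.foot_abs v P Q
      omega
  have h5 := L.proj2 v P Q (by omega)
  omega

end Lines

/-- small cancellation family: different axes have small mutual projections -/
structure SC {G : Type} [Group G] (M : Mark G) (ι : Type) extends Lines M ι where
  ov : ∀ u v : toLines.Y, u ≠ v → ∀ i j, toLines.dv v (toLines.ax u i) (toLines.ax u j) ≤ θ

namespace SC

variable (L : SC M ι)

theorem level {u v : L.Y} (huv : u ≠ v) (p : G) (i : ℤ) (h : 2 * L.θ < L.dv v p (L.ax u i)) :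
    L.D p v < L.D p u := by
  have hκ := L.hκ
  have hθ := L.hθ
  have hτ := L.hτ
  have h1 := L.ov u v huv i (L.pr u p)
  have h2 := L.dv_tri v p (L.ax u (L.pr u p)) (L.ax u i)
  have h3 := L.dv_symm v (L.ax u (L.pr u p)) (L.ax u i)
  have h4 : L.θ < L.dv v p (L.foot u p) := by
    unfold Lines.foot; omega
  have h5 := L.foot_abs v p (L.foot u p)
  have h6 := L.proj2 v p (L.foot u p) (by omega)
  unfold Lines.D
  omega

theorem rot {u v : L.Y} (huv : u ≠ v) (p : G) (i : ℤ)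
    (h : L.τ + 4 * L.θ < 2 * L.dv v p (L.ax u i)) :
    ∃ k : ℤ, L.D p ((L.rt v ^ k) • u) < L.D p u := by
  have h1 := L.ov u v huv i (L.pr u p)
  have h2 := L.dv_tri v p (L.ax u (L.pr u p)) (L.ax u i)
  have h3 := L.dv_symm v (L.ax u (L.pr u p)) (L.ax u i)
  have h4 : L.τ + 2 * L.θ < 2 * L.dv v p (L.foot u p) := by
    unfold Lines.foot; omega
  obtain ⟨k, hk⟩ := L.shorten v p (L.foot u p) h4
  refine ⟨k, lt_of_le_of_lt ?_ hk⟩
  obtain ⟨k', hk'⟩ := L.ax_smul (L.rt v ^ k) u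
  have h5 : L.rt v ^ k * L.foot u p = L.ax ((L.rt v ^ k) • u) (L.pr u p - k' * L.τ) := by
    rw [hk', sub_add_cancel]; rfl
  rw [h5]
  exact L.D_le p _ _

/-- the spinning family of a small cancellation family -/
noncomputable def toSpin : Spin G G L.Y where
  A v := Set.range (L.ax v)
  dv := L.dv
  D := L.D
  τ := L.τ
  θ := 2 * L.θ
  A_ne v := ⟨_, ⟨0, rfl⟩⟩
  A_smul g v z hz := by
    obtain ⟨i, rfl⟩ := hz
    obtain ⟨k, hk⟩ := L.ax_smul g v
    refine ⟨i - k * L.τ, ?_⟩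
    rw [hk, sub_add_cancel]
    rfl
  dv_self := L.dv_self
  dv_symm := L.dv_symm
  dv_tri := L.dv_tri
  dv_smul := L.dv_smul
  D_smul := L.D_smul
  level u v p z huv hz h := by
    obtain ⟨i, rfl⟩ := hz
    exact L.level huv p i h
  rot u v p z huv hz h := by
    obtain ⟨i, rfl⟩ := hz
    obtain ⟨k, hk⟩ := L.rot huv p i (by omega)
    exact ⟨_, L.rt_zpow_smul v k, hk⟩
  spin v h p hv h1 := by
    obtain ⟨k, rfl⟩ := (L.smul_eq_iff h v).1 hv
    have hk : k ≠ 0 := by
      rintro rfl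
      exact h1 (by simp)
    have h2 : L.dv v p ((L.rt v ^ k) • p) = (k * (L.τ : ℤ)).natAbs := by
      rw [smul_eq_mul]
      unfold Lines.dv
      rw [L.pr_rt, show L.pr v p - (L.pr v p + k * L.τ) = -(k * L.τ) by ring, Int.natAbs_neg]
    rw [h2, Int.natAbs_mul]
    have h3 : 1 ≤ k.natAbs := by omega
    have h4 : ((L.τ : ℤ)).natAbs = L.τ := by simp
    rw [h4]
    exact Nat.le_mul_of_pos_left _ h3
  big := by
    have hκ := L.hκ
    have hθ := L.hθ
    have hτ := L.hτ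
    omega

/-- the normal closure of the relators -/
noncomputable def N : Subgroup G := ⨆ v : L.Y, MulAction.stabilizer G v

/-- **Greendlinger lemma.** -/
theorem greend {m : G} (hm : m ∈ L.N) (h1 : m ≠ 1) (p : G) :
    ∃ v, L.τ ≤ L.dv v p (m * p) + 24 * L.θ := by
  obtain ⟨v, hv⟩ := Spin.main L.toSpin m hm h1 p
  refine ⟨v, ?_⟩
  have : L.τ ≤ L.dv v p (m * p) + 12 * (2 * L.θ) := hv
  omega

theorem rt_mem (v : L.Y) (k : ℤ) : L.rt v ^ k ∈ L.N :=
  Subgroup.mem_iSup_of_mem v (L.rt_zpow_smul v k)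

theorem N_normal : L.N.Normal := by
  constructor
  intro n hn g
  refine Subgroup.iSup_induction (fun v : L.Y => MulAction.stabilizer G v)
      (C := fun n => g * n * g⁻¹ ∈ L.N) hn ?_ ?_ ?_
  · intro v x hx
    refine Subgroup.mem_iSup_of_mem (g • v) ?_
    rw [MulAction.mem_stabilizer_iff] at hx ⊢
    rw [mul_smul, mul_smul, inv_smul_smul, hx]
  · simp [L.N.one_mem]
  · intro x y hx hy
    have := L.N.mul_mem hx hy
    rwa [show g * x * g⁻¹ * (g * y * g⁻¹) = g * (x * y) * g⁻¹ by group] at this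

theorem r_mem (w : ι) : L.r w ∈ L.N := by
  have h1 : ∀ g : G, g * L.r w * g⁻¹ ∈ L.N → L.r w ∈ L.N := fun g hg => by
    have := L.N_normal.conj_mem _ hg g⁻¹
    rwa [show g⁻¹ * (g * L.r w * g⁻¹) * g⁻¹⁻¹ = L.r w by group] at this
  have h2 := L.rt_mem ⟨w, ((1 : G) : G ⧸ Subgroup.zpowers (L.r w))⟩ 1
  rw [zpow_one] at h2
  exact h1 _ h2

end SC

end Pool.Agent.Helper93.ML
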