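import Mathlib
import Pool.Agent.Helper93.ML.SC

/-!
# The quotient by a small cancellation family: basic lemmas
-/

namespace Pool.Agent.Helper93.ML

variable {G : Type} [Group G] {M : Mark G} {ι : Type}

namespace Mark

variable (M) (N : Subgroup G) [N.Normal]

/-- induced marking of a quotient -/
def quo : Mark (G ⧸ N) where
  s x := (M.s x : G ⧸ N)
  s_inv x := by rw [M.s_inv]; rfl
  gen := by
    have h := M.gen
    have h2 : Subgroup.map (QuotientGroup.mk' N) (Subgroup.closure (Set.range M.s)) = ⊤ := by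
      rw [h, ← MonoidHom.range_eq_map, MonoidHom.range_eq_top]
      exact QuotientGroup.mk'_surjective N
    rw [MonoidHom.map_closure, ← Set.range_comp] at h2
    exact h2

theorem quo_s (x : Ltr) : (M.quo N).s x = (M.s x : G ⧸ N) := rfl

theorem quo_ev (w : List Ltr) : (M.quo N).ev w = (M.ev w : G ⧸ N) := by
  induction w with
  | nil => simp [ev]
  | cons x w ih => rw [ev_cons, ev_cons, ih, quo_s]; rfl

theorem quo_len_le (g : G) : (M.quo N).len (g : G ⧸ N) ≤ M.len g := by
  obtain ⟨w, h1, h2⟩ := M.exists_geod g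
  rw [← h2, ← h1, ← quo_ev]
  exact (M.quo N).len_le w

theorem quo_d_le (p q : G) : (M.quo N).d (p : G ⧸ N) (q : G ⧸ N) ≤ M.d p q :=
  M.quo_len_le N (p⁻¹ * q)

theorem quo_d_le' (p q : G) {m : G} (hm : m ∈ N) :
    (M.quo N).d (p : G ⧸ N) (q : G ⧸ N) ≤ M.d p (m * q) := by
  have h : ((m * q : G) : G ⧸ N) = (q : G ⧸ N) := by
    rw [QuotientGroup.eq]
    have := (inferInstance : N.Normal).conj_mem _ (N.inv_mem hm) q⁻¹
    simpa [mul_assoc] using this
  rw [← h]
  exact M.quo_d_le N p (m * q)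

/-- distances in the quotient are attained -/
theorem quo_d_lift (p q : G) :
    ∃ m ∈ N, M.d p (m * q) = (M.quo N).d (p : G ⧸ N) (q : G ⧸ N) := by
  obtain ⟨w, h1, h2⟩ := (M.quo N).exists_geod ((p : G ⧸ N)⁻¹ * q)
  rw [quo_ev] at h1
  have h3 : ((p * M.ev w : G) : G ⧸ N) = (q : G ⧸ N) := by
    rw [QuotientGroup.mk_mul, h1]; group
  rw [eq_comm, QuotientGroup.eq] at h3
  refine ⟨p * M.ev w * q⁻¹, ?_, ?_⟩
  · have := (inferInstance : N.Normal).conj_mem _ h3 q
    simpa [mul_assoc] using this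
  · apply le_antisymm
    · have e : M.d p (p * M.ev w * q⁻¹ * q) = M.len (M.ev w) := by
        unfold d; congr 1; group
      rw [e]
      refine le_trans (M.len_le w) ?_
      rw [h2]
      rfl
    · apply M.quo_d_le' N
      have := (inferInstance : N.Normal).conj_mem _ h3 q
      simpa [mul_assoc] using this

/-- two lifts differ by an element of `N` on the left -/
theorem quo_eq (p q : G) : ((p : G ⧸ N) = (q : G ⧸ N)) ↔ ∃ m ∈ N, q = m * p := by
  rw [QuotientGroup.eq]
  constructor
  · intro h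
    refine ⟨q * p⁻¹, ?_, by group⟩
    have := (inferInstance : N.Normal).conj_mem _ h p
    simpa [mul_assoc] using this
  · rintro ⟨m, hm, rfl⟩
    have := (inferInstance : N.Normal).conj_mem _ hm p⁻¹
    simpa [mul_assoc] using this

/-- path lifting -/
theorem quo_lift (f : ℕ → G ⧸ N) : ∀ (n : ℕ), IsPath (M.quo N).d f n → ∀ P : G,
    (P : G ⧸ N) = f 0 → ∃ F : ℕ → G, F 0 = P ∧ (∀ i ≤ n, (F i : G ⧸ N) = f i) ∧
      IsPath M.d F n := by
  intro n
  induction n with
  | zero =>
    intro _ P hP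
    refine ⟨fun _ => P, rfl, fun i hi => ?_, fun i hi => by omega⟩
    rw [Nat.le_zero.1 hi]; exact hP
  | succ n ih =>
    intro hf P hP
    obtain ⟨F, h1, h2, h3⟩ := ih (fun i hi => hf i (by omega)) P hP
    obtain ⟨q, hq⟩ := QuotientGroup.mk_surjective (f (n + 1))
    obtain ⟨m, hm, h4⟩ := M.quo_d_lift N (F n) q
    have h5 : ((m * q : G) : G ⧸ N) = f (n + 1) := by
      rw [← hq, eq_comm, quo_eq]
      exact ⟨m, hm, rfl⟩
    refine ⟨fun i => if i ≤ n then F i else m * q, ?_, ?_, ?_⟩
    · simp [h1]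
    · intro i hi
      by_cases h : i ≤ n
      · simp [h, h2 i h]
      · have : i = n + 1 := by omega
        subst this
        simp [h5]
    · intro i hi
      by_cases h : i < n
      · have e1 : i ≤ n := by omega
        have e2 : i + 1 ≤ n := by omega
        simp only [e1, e2, if_true]
        exact h3 i h
      · have : i = n := by omega
        subst this
        have e2 : ¬ (i + 1 ≤ i) := by omega
        simp only [le_refl, if_true, e2, if_false]
        rw [h4, h2 i le_rfl, hq]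
        exact hf i (by omega)

end Mark

namespace SC

variable (L : SC M ι)

instance : L.N.Normal := L.N_normal

/-- the quotient group -/
abbrev H : Type := G ⧸ L.N

/-- its marking -/
noncomputable def MH : Mark L.H := M.quo L.N

/-- minimal pairs have small projections -/
theorem min_dv {P Q : G} (h : M.d P Q = L.MH.d (P : L.H) (Q : L.H)) (v : L.Y) :
    2 * L.dv v P Q ≤ L.τ + 2 * L.θ := by
  by_contra hc
  obtain ⟨k, hk⟩ := L.shorten v P Q (by omega)
  have := M.quo_d_le' L.N P Q (L.rt_mem v k)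
  unfold MH at h
  omega

/-- pairs with small projections are strictly minimal -/
theorem trans_lt {P Q : G} {B : ℕ} (hB : 2 * B + 50 * L.θ < L.τ) (h : ∀ v, L.dv v P Q ≤ B)
    {m : G} (hm : m ∈ L.N) (hm1 : m ≠ 1) : M.d P Q < M.d P (m * Q) := by
  -- a minimiser
  obtain ⟨m0, hm0, h0⟩ := M.quo_d_lift L.N P Q
  have key : ∀ m' ∈ L.N, M.d P (m' * Q) = L.MH.d (P : L.H) (Q : L.H) → m' = 1 := by
    intro m' hm' h'
    by_contra hne
    obtain ⟨v, hv⟩ := L.greend hm' hne Q
    have h1 := L.dv_tri v Q P (m' * Q)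
    have h2 := L.dv_symm v Q P
    have h3 := h v
    have h4 : M.d P (m' * Q) = L.MH.d (P : L.H) ((m' * Q : G) : L.H) := by
      rw [h']
      congr 1
      rw [Mark.quo_eq]
      exact ⟨m', hm', rfl⟩
    have h5 := L.min_dv h4 v
    omega
  have e0 := key m0 hm0 h0
  subst e0
  rw [one_mul] at h0
  have h6 := M.quo_d_le' L.N P Q hm
  rcases lt_or_eq_of_le h6 with h7 | h7
  · rw [← h0] at h7; exact h7
  · exact absurd (key m hm h7.symm) hm1

theorem trans_eq {P Q : G} {B : ℕ} (hB : 2 * B + 50 * L.θ < L.τ) (h : ∀ v, L.dv v P Q ≤ B) :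
    L.MH.d (P : L.H) (Q : L.H) = M.d P Q := by
  obtain ⟨m0, hm0, h0⟩ := M.quo_d_lift L.N P Q
  by_cases h1 : m0 = 1
  · subst h1
    rw [one_mul] at h0
    exact h0.symm
  · have h2 := L.trans_lt hB h hm0 h1
    have h3 := M.quo_d_le L.N P Q
    unfold MH
    omega

/-- nontrivial elements of `N` are long -/
theorem long {m : G} (hm : m ∈ L.N) (h1 : m ≠ 1) : L.τ ≤ 3 * M.len m := by
  obtain ⟨v, hv⟩ := L.greend hm h1 1
  rw [mul_one] at hv
  have h2 := L.dv_le v 1 m
  rw [M.d_one_left] at h2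
  have hκ := L.hκ
  have hθ := L.hθ
  have hτ := L.hτ
  omega

/-- distances on relator circles in the quotient -/
theorem circle (v : L.Y) (i j : ℤ) (hij : 2 * (i - j).natAbs ≤ L.τ + 2) :
    (i - j).natAbs ≤ L.MH.d ((L.ax v i : G) : L.H) ((L.ax v j : G) : L.H) + L.κ ∨
      L.τ ≤ 5 * L.MH.d ((L.ax v i : G) : L.H) ((L.ax v j : G) : L.H) := by
  have hκ := L.hκ
  have hθ := L.hθ
  have hτ := L.hτ
  obtain ⟨m, hm, h0⟩ := M.quo_d_lift L.N (L.ax v i) (L.ax v j)
  change _ = L.MH.d _ _ at h0
  by_cases h1 : m = 1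
  · left
    subst h1
    rw [one_mul] at h0
    have := L.ax_abs4 v i j (by omega)
    omega
  · right
    obtain ⟨u, hu⟩ := L.greend hm h1 (L.ax v j)
    have h4 : M.d (L.ax v i) (m * L.ax v j) =
        L.MH.d ((L.ax v i : G) : L.H) ((m * L.ax v j : G) : L.H) := by
      rw [h0]
      congr 1
      rw [Mark.quo_eq]
      exact ⟨m, hm, rfl⟩
    have h5 := L.min_dv h4 u
    have t1 := L.dv_tri u (L.ax v j) (L.ax v i) (m * L.ax v j)
    have s1 := L.dv_symm u (L.ax v j) (L.ax v i)
    by_cases huv : v = u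
    · subst huv
      have h6 : L.dv v (L.ax v i) (L.ax v j) ≤ (i - j).natAbs + 2 * L.κ := by
        unfold Lines.dv
        have a1 := L.pr_ax v i
        have a2 := L.pr_ax v j
        omega
      have h7 := L.dv_le v (L.ax v i) (m * L.ax v j)
      omega
    · have := L.ov v u huv i j
      omega

end SC

end Pool.Agent.Helper93.ML
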