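import Mathlib
import Pool.Agent.Helper93.ML.Quo

/-!
# One level of the construction: data and module statements (M5)
-/

namespace Pool.Agent.Helper93.ML

/-- The data of one level: a set `K` of geodesic words of length `l`, a code, and the choice of
the separating letters `x w, y w ∈ {t, t⁻¹}` of the relators `w x(w) code(w) y(w)`, such that
the two junctions are almost geodesic. -/
structure Lvl {G : Type} [Group G] (M : Mark G) (cons : List (ℕ × ℕ)) (δ : ℕ) where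
  K : Set (List Ltr)
  l : ℕ
  n : ℕ
  m : ℕ
  p : ℕ
  code : List Ltr → List Ltr
  x : List Ltr → Ltr
  y : List Ltr → Ltr
  inv : Inv M cons δ
  isCode : IsCode cons p l n m code
  hK : ∀ w ∈ K, w.length = l ∧ M.len (M.ev w) = l
  hx : ∀ w, x w = lt ∨ x w = inv1 lt
  hy : ∀ w, y w = lt ∨ y w = inv1 lt
  jx : ∀ w ∈ K, l + (n + 1) ≤ M.len (M.ev (w ++ x w :: code w)) + 2 * δ
  jy : ∀ w ∈ K, (n + 1) + l ≤ M.len (M.ev (code w ++ y w :: w)) + 2 * δ

namespace Lvl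

variable {G : Type} [Group G] {M : Mark G} {cons : List (ℕ × ℕ)} {δ : ℕ} (V : Lvl M cons δ)

/-- the relator of the word `w` -/
def rel (w : List Ltr) : List Ltr := w ++ V.x w :: (V.code w ++ [V.y w])

end Lvl

/-- MODULE M5_Junction: the separating letters can be chosen. -/
def StmtM5Junction : Prop :=
  ∀ (G : Type) [Group G] (M : Mark G) (cons : List (ℕ × ℕ)) (δ : ℕ), Inv M cons δ →
    ∀ (w c : List Ltr), M.len (M.ev w) = w.length → Pos c → Sep cons c →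
      (∃ x, (x = lt ∨ x = inv1 lt) ∧
        w.length + (c.length + 1) ≤ M.len (M.ev (w ++ x :: c)) + 2 * δ) ∧
      (∃ y, (y = lt ∨ y = inv1 lt) ∧
        (c.length + 1) + w.length ≤ M.len (M.ev (c ++ y :: w)) + 2 * δ)

/-- MODULE M5_Lines: the relator lines are straight quasi-geodesics. -/
def StmtM5Lines : Prop :=
  ∀ (G : Type) [Group G] (M : Mark G) (cons : List (ℕ × ℕ)) (δ : ℕ) (V : Lvl M cons δ)
    (C : ℕ), V.l + V.n + 2 ≤ C * V.l → 100 * (δ + 1) ≤ V.l → V.l ≤ V.n →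
    ∀ w ∈ V.K,
      (∀ a b c : ℤ, a ≤ b → b ≤ c →
        M.d (M.line (V.rel w) a) (M.line (V.rel w) b) +
          M.d (M.line (V.rel w) b) (M.line (V.rel w) c)
          ≤ M.d (M.line (V.rel w) a) (M.line (V.rel w) c) + 2 * (100 * (C + 1) * (δ + 1))) ∧
      (∀ a b : ℤ, a ≤ b → b ≤ a + 4 * ((V.l + V.n + 2 : ℕ) : ℤ) →
        b ≤ a + M.d (M.line (V.rel w) a) (M.line (V.rel w) b) +
          ((100 * (C + 1) * (δ + 1) : ℕ) : ℤ)) ∧
      (∀ a b : ℤ, a ≤ b →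
        b ≤ a + 2 * M.d (M.line (V.rel w) a) (M.line (V.rel w) b) +
          2 * ((100 * (C + 1) * (δ + 1) : ℕ) : ℤ))

/-- MODULE M5_Match: a clean word close to a geodesic word shares its middle part with it. -/
def StmtM5Match : Prop :=
  ∀ (G : Type) [Group G] (M : Mark G) (cons : List (ℕ × ℕ)) (δ : ℕ), Inv M cons δ →
    ∀ D, ∃ Λ, ∀ (ζ z' : List Ltr) (P P' : G), Clean cons ζ → M.len (M.ev z') = z'.length →
      M.d P P' ≤ D → M.d (P * M.ev ζ) (P' * M.ev z') ≤ D → 2 * Λ ≤ ζ.length →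
      ∃ j₀, j₀ + (ζ.length - 2 * Λ) ≤ z'.length ∧
        (ζ.drop Λ).take (ζ.length - 2 * Λ) = (z'.drop j₀).take (ζ.length - 2 * Λ) ∧
        P * M.ev (ζ.take Λ) = P' * M.ev (z'.take j₀)

/-- MODULE M5_Ov: different axes have small overlap. -/
def StmtM5Ov : Prop :=
  ∀ (G : Type) [Group G] (M : Mark G) (cons : List (ℕ × ℕ)) (δ : ℕ), Inv M cons δ →
    ∀ κ, ∃ Λ₀, ∀ (V : Lvl M cons δ) (L : Lines M V.K), (∀ w, L.R w = V.rel w) → L.κ = κ →
      Λ₀ ≤ V.l → 1000 * V.l ≤ L.θ → 1000 * V.m ≤ L.θ →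
      ∀ u v : L.Y, u ≠ v → ∀ i j, L.dv v (L.ax u i) (L.ax u j) ≤ L.θ

/-- MODULE M5_Trans: words which are clean for the next level have small projections. -/
def StmtM5Trans : Prop :=
  ∀ (G : Type) [Group G] (M : Mark G) (cons : List (ℕ × ℕ)) (δ : ℕ), Inv M cons δ →
    ∀ κ, ∃ Λ₀, ∀ (V : Lvl M cons δ) (L : Lines M V.K), (∀ w, L.R w = V.rel w) → L.κ = κ →
      Λ₀ ≤ V.l → 1000 * V.l ≤ L.θ → 1000 * V.m ≤ L.θ →
      ∀ z, Clean ((V.p, V.m) :: cons) z → ∀ (v : L.Y) (P : G),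
        L.dv v P (P * M.ev z) ≤ L.θ

/-- MODULE M5_ELine: the line of the preserved letter `e` has small projections. -/
def StmtM5ELine : Prop :=
  ∀ (G : Type) [Group G] (M : Mark G) (cons : List (ℕ × ℕ)) (δ : ℕ), Inv M cons δ →
    ∀ κ, ∃ Λ₀, ∀ (V : Lvl M cons δ) (L : Lines M V.K), (∀ w, L.R w = V.rel w) → L.κ = κ →
      1000 * V.l ≤ L.θ → V.l ≤ V.n →
      ∀ e ∈ [lc, lt], ∀ ρ, 2 ≤ ρ → (e = lc → V.p ≤ ρ) → 4 * ρ + Λ₀ ≤ V.l →
        (∀ w ∈ V.K, ¬ (List.replicate ρ e <:+: w) ∧ ¬ (List.replicate ρ (inv1 e) <:+: w)) →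
        ∀ (v : L.Y) (i j : ℤ), L.dv v (M.s e ^ i) (M.s e ^ j) ≤ 4 * ρ + Λ₀

end Pool.Agent.Helper93.ML
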