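import Mathlib
import Pool.Agent.Helper93.ML.Level

/-!
# Reading words along axes; clean words
-/

namespace Pool.Agent.Helper93.ML

/-! ### clean words -/

theorem invw_sub {a b : List Ltr} (h : a <:+: b) : invw a <:+: invw b := by
  obtain ⟨s, t, rfl⟩ := h
  rw [invw_append, invw_append]
  exact ⟨invw t, invw s, by simp⟩

theorem red_sub {a b : List Ltr} (h : Red b) (hab : a <:+: b) : Red a := by
  obtain ⟨s, t, rfl⟩ := hab
  unfold Red at *
  exact (List.IsChain.left_of_append (List.IsChain.right_of_append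
    (by simpa [List.append_assoc] using h : List.IsChain _ (s ++ (a ++ t)))))

theorem red_invw {a : List Ltr} (h : Red a) : Red (invw a) := by
  unfold Red invw at *
  rw [List.isChain_reverse, List.isChain_map]
  refine h.imp ?_
  intro x y hxy h2
  apply hxy
  rw [inv1_inv1] at h2
  exact h2.symm

theorem sep_sub {cons : List (ℕ × ℕ)} {a b : List Ltr} (h : Sep cons b) (hab : a <:+: b) :
    Sep cons a := fun c hc y hy => h c hc y (hy.trans hab)

theorem clean_sub {cons : List (ℕ × ℕ)} {a b : List Ltr} (h : Clean cons b) (hab : a <:+: b) :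
    Clean cons a :=
  ⟨red_sub h.1 hab, sep_sub h.2.1 hab, sep_sub h.2.2 (invw_sub hab)⟩

theorem clean_invw {cons : List (ℕ × ℕ)} {a : List Ltr} (h : Clean cons a) :
    Clean cons (invw a) :=
  ⟨red_invw h.1, h.2.2, by rw [invw_invw]; exact h.2.1⟩

theorem clean_tail {c : ℕ × ℕ} {cons : List (ℕ × ℕ)} {a : List Ltr}
    (h : Clean (c :: cons) a) : Clean cons a :=
  ⟨h.1, fun c' hc' => h.2.1 c' (List.mem_cons_of_mem _ hc'),
    fun c' hc' => h.2.2 c' (List.mem_cons_of_mem _ hc')⟩

theorem pos_sub {a b : List Ltr} (h : Pos b) (hab : a <:+: b) : Pos a :=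
  fun x hx => h x (hab.subset hx)

theorem red_of_pos {z : List Ltr} (h : Pos z) : Red z := by
  unfold Red
  induction z with
  | nil => exact .nil
  | cons a z ih =>
    cases z with
    | nil => exact .singleton _
    | cons b z =>
      refine List.IsChain.cons_cons ?_ (ih (fun x hx => h x (List.mem_cons_of_mem _ hx)))
      intro hb
      have h1 := (h a (by simp)).2
      have h2 := (h b (by simp)).2
      rw [hb] at h2
      simp [inv1, h1] at h2

theorem pos_invw_nil {z y : List Ltr} (h : Pos z) (hy : y <:+: invw z) (hp : Pos y) : y = [] := by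
  cases y with
  | nil => rfl
  | cons a y =>
    exfalso
    have h1 := (hp a (by simp)).2
    have h2 : a ∈ invw z := hy.subset (by simp)
    unfold invw at h2
    rw [List.mem_reverse, List.mem_map] at h2
    obtain ⟨b, hb, rfl⟩ := h2
    have h3 := (h b hb).2
    simp [inv1, h3] at h1

theorem clean_of_pos {cons : List (ℕ × ℕ)} {z : List Ltr} (h : Pos z) (hs : Sep cons z)
    (hc : ∀ c ∈ cons, 3 ≤ c.2 ∧ c.1 ≤ c.2) : Clean cons z := by
  refine ⟨red_of_pos h, hs, fun c hcc y hy hp hl => ?_⟩
  have := pos_invw_nil h hy hp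
  subst this
  have := hc c hcc
  simp at hl
  omega

/-- a positive infix of `x :: (c ++ [y])` with `x,y` not among `a,b,c` is an infix of `c` -/
theorem pos_mid {c z : List Ltr} {x y : Ltr} (hx : x.1 = 3) (hy : y.1 = 3)
    (hz : z <:+: x :: (c ++ [y])) (hp : Pos z) : z <:+: c := by
  rw [List.infix_cons_iff] at hz
  rcases hz with hz | hz
  · cases z with
    | nil => exact List.nil_infix
    | cons a z =>
      rw [List.cons_prefix_cons] at hz
      have := (hp a (by simp)).1
      rw [hz.1] at this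
      exact absurd hx this
  · rw [List.infix_concat_iff] at hz
    rcases hz with hz | hz
    · rcases List.eq_nil_or_concat z with h | ⟨z', a, h⟩
      · subst h; exact List.nil_infix
      · subst h
        rw [List.concat_eq_append] at hz hp
        obtain ⟨s, hs⟩ := hz
        rw [← List.append_assoc] at hs
        have := List.append_inj' hs rfl
        have h2 : a = y := by simpa using this.2
        have := (hp a (by simp)).1
        rw [h2] at this
        exact absurd hy this
    · exact hz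

section
variable {G : Type} [Group G] {M : Mark G} {cons : List (ℕ × ℕ)} {δ : ℕ} (V : Lvl M cons δ)

namespace Lvl

theorem x3 (w : List Ltr) : (V.x w).1 = 3 := by
  rcases V.hx w with h | h <;> simp [h, inv1]

theorem y3 (w : List Ltr) : (V.y w).1 = 3 := by
  rcases V.hy w with h | h <;> simp [h, inv1]

theorem code_clean {w : List Ltr} (hw : w ∈ V.K) : Clean cons (V.code w) :=
  clean_of_pos (V.isCode.pos w (V.hK w hw).1) (V.isCode.sep w (V.hK w hw).1) V.inv.cons_ok

theorem rel_length {w : List Ltr} (hw : w ∈ V.K) : (V.rel w).length = V.l + V.n + 2 := by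
  unfold rel
  have h1 := (V.hK w hw).1
  have h2 := V.isCode.len w h1
  simp [h1, h2]
  omega

/-- the long part of the relator is clean -/
theorem u_clean {w : List Ltr} (hw : w ∈ V.K) (hn : 1 ≤ V.n) :
    Clean cons (V.x w :: (V.code w ++ [V.y w])) := by
  have hl := (V.hK w hw).1
  have hpos := V.isCode.pos w hl
  have hlen := V.isCode.len w hl
  refine ⟨?_, ?_, ?_⟩
  · unfold Red
    have hred : List.IsChain (fun x y => y ≠ inv1 x) (V.code w) := red_of_pos hpos
    have hne : V.code w ≠ [] := by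
      intro h
      rw [h] at hlen
      simp at hlen
      omega
    have h1 : List.IsChain (fun x y => y ≠ inv1 x) (V.code w ++ [V.y w]) := by
      refine hred.append (.singleton _) ?_
      intro a ha b hb
      have hb' : V.y w = b := by simpa using hb
      rw [← hb']
      intro h
      have h3 := (hpos a (List.mem_of_getLast? ha)).1
      have h4 := V.y3 w
      rw [h] at h4
      exact h3 h4
    refine List.IsChain.cons h1 ?_
    intro b hb h
    rw [List.head?_append_of_ne_nil _ hne] at hb
    have h3 := (hpos b (List.mem_of_mem_head? hb)).1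
    have h4 := V.x3 w
    rw [h] at h3
    exact h3 h4
  · intro c hc z hz hp hlz
    exact V.isCode.sep w hl c hc z (pos_mid (V.x3 w) (V.y3 w) hz hp) hp hlz
  · intro c hc z hz hp hlz
    have h1 : invw (V.x w :: (V.code w ++ [V.y w])) =
        inv1 (V.y w) :: (invw (V.code w) ++ [inv1 (V.x w)]) := by
      simp [invw]
    rw [h1] at hz
    have h2 : z <:+: invw (V.code w) :=
      pos_mid (x := inv1 (V.y w)) (y := inv1 (V.x w)) (V.y3 w) (V.x3 w) hz hp
    have h3 := pos_invw_nil hpos h2 hp
    subst h3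
    have := V.inv.cons_ok c hc
    simp at hlz
    omega

theorem u_geod {w : List Ltr} (hw : w ∈ V.K) (hn : 1 ≤ V.n) :
    M.Gd (V.x w :: (V.code w ++ [V.y w])) := V.inv.geod _ (V.u_clean hw hn)

end Lvl

end

/-! ### reading along axes -/

namespace Lines

variable {G : Type} [Group G] {M : Mark G} {ι : Type} (L : Lines M ι)

/-- reading along an axis inside a period -/
theorem ax_read (v : L.Y) (q : ℤ) (r k : ℕ) (h : r + k ≤ L.τ) :
    L.ax v (q * L.τ + r + k) = L.ax v (q * L.τ + r) * M.ev (((L.R v.1).drop r).take k) := by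
  unfold ax
  rw [mul_assoc]
  congr 1
  have hl := L.lenR v.1
  have h1 := M.line_eq (L.R v.1) (L.hR _) q r (by omega)
  have h2 := M.line_eq (L.R v.1) (L.hR _) q (r + k) (by omega)
  rw [hl] at h1 h2
  push_cast at h2
  rw [← add_assoc] at h2
  rw [h1, h2, mul_assoc, M.ev_take_add]

end Lines

/-- code windows exist in every window which is not too long -/
theorem window_exists (l n : ℕ) (x0 : ℤ) (h : ℕ) (hh : h ≤ n) (hl : l + 3 ≤ h) :
    ∃ (q : ℤ) (s k : ℕ), s + k ≤ n ∧ x0 ≤ q * ((l + n + 2 : ℕ) : ℤ) + (l + 1 : ℕ) + s ∧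
      q * ((l + n + 2 : ℕ) : ℤ) + (l + 1 : ℕ) + s + k ≤ x0 + h ∧ h ≤ 2 * k + l + 3 := by
  set T : ℤ := ((l + n + 2 : ℕ) : ℤ) with hT
  have hTpos : 0 < T := by rw [hT]; positivity
  set q := (x0 + 1) / T with hq
  have e1 := Int.mul_ediv_add_emod (x0 + 1) T
  have e2 := Int.emod_nonneg (x0 + 1) hTpos.ne'
  have e3 := Int.emod_lt_of_pos (x0 + 1) hTpos
  rw [← hq] at e1
  set r := (x0 + 1) % T with hr
  have e4 : T * q = q * T := mul_comm _ _
  have e5 : (q + 1) * T = q * T + T := by ring
  push_cast at hT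
  by_cases h1 : x0 + h ≤ (q + 1) * T - 1
  · by_cases h2 : x0 ≤ q * T + l + 1
    · refine ⟨q, 0, (x0 + h - (q * T + l + 1)).toNat, ?_, ?_, ?_, ?_⟩
      all_goals push_cast
      all_goals omega
    · refine ⟨q, (x0 - (q * T + l + 1)).toNat, h, ?_, ?_, ?_, ?_⟩
      all_goals push_cast
      all_goals omega
  · by_cases h2 : x0 ≤ q * T + l + 1
    · refine ⟨q, 0, n, ?_, ?_, ?_, ?_⟩
      all_goals push_cast
      all_goals omega
    · by_cases h3 : (h : ℤ) ≤ 2 * ((q + 1) * T - 1 - x0) + l + 3
      · refine ⟨q, (x0 - (q * T + l + 1)).toNat, ((q + 1) * T - 1 - x0).toNat, ?_, ?_, ?_, ?_⟩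
        all_goals push_cast
        all_goals omega
      · refine ⟨q + 1, 0, (x0 + h - ((q + 1) * T + l + 1)).toNat, ?_, ?_, ?_, ?_⟩
        all_goals push_cast
        all_goals omega

namespace Lvl

variable {G : Type} [Group G] {M : Mark G} {cons : List (ℕ × ℕ)} {δ : ℕ} (V : Lvl M cons δ)

/-- dropping the first `l + 1` letters of a relator one reads the code -/
theorem rel_drop {w : List Ltr} (hw : w ∈ V.K) (s k : ℕ) (h : s + k ≤ V.n) :
    ((V.rel w).drop (V.l + 1 + s)).take k = ((V.code w).drop s).take k := by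
  have hl := (V.hK w hw).1
  have hlen := V.isCode.len w hl
  have e : (V.rel w).drop (V.l + 1 + s) = (V.code w ++ [V.y w]).drop s := by
    unfold rel
    rw [← List.drop_drop, ← List.drop_drop]
    rw [List.drop_left' hl]
    rfl
  rw [e, List.drop_append_of_le_length (by omega), List.take_append_of_le_length]
  rw [List.length_drop]
  omega

/-- reading the code along an axis -/
theorem ax_code (L : Lines M V.K) (hR : ∀ w, L.R w = V.rel w) (v : L.Y) (q : ℤ) (s k : ℕ)
    (h : s + k ≤ V.n) :
    L.ax v (q * ((V.l + V.n + 2 : ℕ) : ℤ) + (V.l + 1 : ℕ) + s + k) =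
      L.ax v (q * ((V.l + V.n + 2 : ℕ) : ℤ) + (V.l + 1 : ℕ) + s) *
        M.ev (((V.code v.1).drop s).take k) := by
  have hτ : L.τ = V.l + V.n + 2 := by
    rw [← L.lenR v.1, hR, V.rel_length v.1.2]
  have h1 := L.ax_read v q (V.l + 1 + s) k (by omega)
  rw [hR, V.rel_drop v.1.2 s k h, hτ] at h1
  have e1 : q * ((V.l + V.n + 2 : ℕ) : ℤ) + (V.l + 1 : ℕ) + s + k =
    q * ((V.l + V.n + 2 : ℕ) : ℤ) + ((V.l + 1 + s : ℕ) : ℤ) + k := by push_cast; ring
  have e2 : q * ((V.l + V.n + 2 : ℕ) : ℤ) + (V.l + 1 : ℕ) + s =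
    q * ((V.l + V.n + 2 : ℕ) : ℤ) + ((V.l + 1 + s : ℕ) : ℤ) := by push_cast; ring
  rw [e1, e2]
  exact h1

end Lvl

end Pool.Agent.Helper93.ML
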