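import Mathlib
import Pool.Agent.Helper93.ML.Quo

/-!
# Module statements, second part (consequences of small cancellation)
-/

namespace Pool.Agent.Helper93.ML

/-- MODULE M6_Dehn: the quotient has the Dehn property at scale `τ`. -/
def StmtM6Dehn : Prop :=
  ∀ (G : Type) [Group G] (M : Mark G) (ι : Type) (L : SC M ι), Dehn L.MH.d L.τ

/-- MODULE M6_Rig: rigidity passes to the quotient. -/
def StmtM6Rig : Prop :=
  ∀ (G : Type) [Group G] (M : Mark G) (ι : Type) (L : SC M ι) (cons cons' : List (ℕ × ℕ)),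
    (∀ z, Clean cons' z → Clean cons z) →
    (∀ z, Clean cons z → M.len (M.ev z) = z.length) →
    Rig M cons →
    (∀ z, Clean cons' z → ∀ (v : L.Y) (P : G), L.dv v P (P * M.ev z) ≤ L.θ) →
    Rig L.MH cons'

/-- MODULE M6_Bottle: a line with small projections is a bottleneck in the quotient. -/
def StmtM6Bottle : Prop :=
  ∀ (G : Type) [Group G] (M : Mark G) (ι : Type) (L : SC M ι) (x : G) (ρ' D' : ℕ),
    (∀ j : ℕ, M.len (x ^ j) = j) →
    (∀ (v : L.Y) (i j : ℤ), L.dv v (x ^ i) (x ^ j) ≤ ρ') →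
    ρ' ≤ L.θ → L.κ ≤ D' → 100 * D' ≤ L.θ →
    ∀ (n : ℕ) (f : ℕ → L.H) (a b : ℤ), 4 * L.δ * Nat.clog 2 n ≤ D' → IsPath L.MH.d f n →
      a ≤ b → f 0 = ((x ^ a : G) : L.H) → f n = ((x ^ b : G) : L.H) →
      Set.ncard {j : ℤ | a ≤ j ∧ j ≤ b ∧
        ∀ i ≤ n, D' < L.MH.d ((x ^ j : G) : L.H) (f i)} * L.τ ≤ 4 * n * (ρ' + 200 * D')

end Pool.Agent.Helper93.ML
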