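import Mathlib
import Pool.Agent.Helper93.ML.Defs

/-!
# The geometric definitions used in the final statement for MP_021201_al
-/

open Filter Topology

namespace Pool.Agent.Helper93.ML.Fin

/-! ## Cayley graphs -/

/-- Word length of `g` with respect to `S`: least length of a product of elements of `S ∪ S⁻¹`
equal to `g`. -/
noncomputable def wordLen {G : Type} [Group G] (S : Set G) (g : G) : ℕ :=
  sInf {n | ∃ l : List G, (∀ x ∈ l, x ∈ S ∨ x⁻¹ ∈ S) ∧ l.prod = g ∧ l.length = n}

/-- `X`, with the vertex map `ι`, is a metric model of the Cayley graph of `(G, S)`: the vertex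
map is isometric for the word metric and every point is at distance at most `1` from a vertex.
The geometric realisation of the Cayley graph (with edges of length one) is such a model. -/
structure IsCayley {G : Type} [Group G] (S : Set G) (X : Type) [MetricSpace X] (ι : G → X) :
    Prop where
  isom : ∀ g h : G, dist (ι g) (ι h) = wordLen S (g⁻¹ * h)
  dense : ∀ x : X, ∃ g : G, dist x (ι g) ≤ 1

/-! ## Morse quasi-geodesics -/

/-- `(lam, eps)`-quasi-geodesic `γ : I → X` (`γ` is given on `ℝ`, only its values on `I`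
matter). -/
def IsQG {X : Type} [MetricSpace X] (lam eps : ℝ) (I : Set ℝ) (γ : ℝ → X) : Prop :=
  ∀ s ∈ I, ∀ t ∈ I, |s - t| / lam - eps ≤ dist (γ s) (γ t) ∧
    dist (γ s) (γ t) ≤ lam * |s - t| + eps

/-- Morse gauge: a function `[1,∞) × [0,∞) → [0,∞)`. -/
def IsGauge (M : ℝ → ℝ → ℝ) : Prop := ∀ lam eps : ℝ, 1 ≤ lam → 0 ≤ eps → 0 ≤ M lam eps

/-- `γ : I → X` is `M`-Morse: every quasi-geodesic `η : [a,b] → X` with both endpoints on `γ`
lies in the closed `M(lam,eps)`-neighbourhood of `γ`. -/
def IsMorse {X : Type} [MetricSpace X] (M : ℝ → ℝ → ℝ) (I : Set ℝ) (γ : ℝ → X) : Prop :=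
  ∀ lam eps : ℝ, 1 ≤ lam → 0 ≤ eps → ∀ (a b : ℝ) (η : ℝ → X), a ≤ b →
    IsQG lam eps (Set.Icc a b) η → η a ∈ γ '' I → η b ∈ γ '' I →
    ∀ t ∈ Set.Icc a b, η t ∈ Metric.cthickening (M lam eps) (γ '' I)

/-- `X` is Morse limited. -/
def MorseLimited (X : Type) [MetricSpace X] : Prop :=
  ∀ M : ℝ → ℝ → ℝ, IsGauge M → ∀ lam eps : ℝ, 1 ≤ lam → 0 ≤ eps → ∃ B : ℝ, 0 ≤ B ∧
    ∀ (I : Set ℝ) (γ : ℝ → X), I.OrdConnected → IsQG lam eps I γ → IsMorse M I γ →
      ∀ s ∈ I, ∀ t ∈ I, |s - t| ≤ B

/-! ## Asymptotic cones -/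

/-- Sequences in `X` at `ω`-bounded rescaled distance from the base points `o n`. -/
def ConeSeq (X : Type) [MetricSpace X] (ω : Ultrafilter ℕ) (s : ℕ → ℝ) (o : ℕ → X) : Type :=
  {x : ℕ → X // ∃ C : ℝ, ∀ᶠ n in (ω : Filter ℕ), dist (x n) (o n) / s n ≤ C}

/-- `C` with the map `π` is the asymptotic cone (ultralimit) of `(X, dist / s n)` with base
points `o n`: `π` is surjective from the admissible sequences and the distance in `C` is the
`ω`-limit of the rescaled distances. -/
structure IsCone (X : Type) [MetricSpace X] (ω : Ultrafilter ℕ) (s : ℕ → ℝ) (o : ℕ → X)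
    (C : Type) [MetricSpace C] (π : ConeSeq X ω s o → C) : Prop where
  surj : Function.Surjective π
  dist_eq : ∀ x y : ConeSeq X ω s o,
    Tendsto (fun n => dist (x.1 n) (y.1 n) / s n) (ω : Filter ℕ) (𝓝 (dist (π x) (π y)))

/-- `C` has a cut-point -/
def HasCutPoint (C : Type) [TopologicalSpace C] : Prop :=
  ∃ p : C, ¬ IsPreconnected ({p}ᶜ : Set C)

/-- every asymptotic cone of `X` (for every non-principal ultrafilter, every scaling sequence
tending to infinity, every sequence of base points) has a cut-point; moreover the cones exist and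
are connected, so that the statement is about actual spaces. -/
def AllConesCut (X : Type) [MetricSpace X] : Prop :=
  ∀ (ω : Ultrafilter ℕ), (ω : Filter ℕ) ≤ cofinite → ∀ s : ℕ → ℝ,
    Tendsto s atTop atTop → ∀ o : ℕ → X,
      (∃ (C : Type) (_ : MetricSpace C) (π : ConeSeq X ω s o → C), IsCone X ω s o C π) ∧
      ∀ (C : Type) [MetricSpace C] (π : ConeSeq X ω s o → C), IsCone X ω s o C π →
        ConnectedSpace C ∧ HasCutPoint C

/-- The final statement (negated form of Q1). -/
def StmtFinal : Prop :=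
  ∃ (G : Type) (_ : Group G) (S : Finset G), Subgroup.closure (S : Set G) = ⊤ ∧
    (∃ (X : Type) (_ : MetricSpace X) (ι : G → X), IsCayley (S : Set G) X ι) ∧
    ∀ (X : Type) [MetricSpace X] (ι : G → X), IsCayley (S : Set G) X ι →
      MorseLimited X ∧ AllConesCut X

/-- MODULE M10. -/
def StmtFinalCone : Prop := StmtCT → StmtFinal

end Pool.Agent.Helper93.ML.Fin
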