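import Mathlib
import Pool.Agent.Helper93.ML.Window
import Pool.Agent.Helper93.ML.Stmts2

/-!
# The step theorem, assembled from the modules
-/

namespace Pool.Agent.Helper93.ML

open Filter

/-- logarithms of polynomials are small -/
theorem clog_poly (A c : ℕ) : ∃ L : ℕ, ∀ l ≥ L, ∀ x ≤ A * l ^ 4, c * Nat.clog 2 x ≤ l := by
  rcases Nat.eq_zero_or_pos c with rfl | hc
  · exact ⟨0, fun l _ x _ => by simp⟩
  -- eventually `A * (c*(j+1))^4 ≤ 2^j`
  have h1 : Tendsto (fun j : ℕ => ((j : ℝ) ^ 4) / (2 : ℝ) ^ j) atTop (nhds 0) :=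
    tendsto_pow_const_div_const_pow_of_one_lt 4 (by norm_num)
  have h2 : ∀ᶠ j : ℕ in atTop, ((j : ℝ) ^ 4) / (2 : ℝ) ^ j < 1 / (2 * (A + 1) * c ^ 4) := by
    apply h1.eventually_lt_const
    positivity
  obtain ⟨J, hJ⟩ := eventually_atTop.1 h2
  refine ⟨c * (J + 1), fun l hl x hx => ?_⟩
  have hj : J + 1 ≤ l / c := by
    rw [Nat.le_div_iff_mul_le hc]; linarith [mul_comm c (J + 1)]
  have h3 := hJ (l / c + 1) (by omega)
  have h4 : l ≤ c * (l / c + 1) := by
    have := Nat.lt_mul_div_succ l hc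
    exact this.le
  have h5 : x ≤ 2 ^ (l / c) := by
    refine le_trans hx ?_
    have h6 : (A : ℝ) * (l : ℝ) ^ 4 ≤ 2 ^ (l / c) := by
      have h7 : (l : ℝ) ≤ c * ((l / c + 1 : ℕ) : ℝ) := by exact_mod_cast h4
      have h8 : (l : ℝ) ^ 4 ≤ (c : ℝ) ^ 4 * (((l / c + 1 : ℕ) : ℝ)) ^ 4 := by
        rw [← mul_pow]
        exact pow_le_pow_left₀ (by positivity) h7 4
      have hcp : (0 : ℝ) < c := by exact_mod_cast hc
      rw [div_lt_div_iff₀ (by positivity) (by positivity)] at h3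
      have h9 : (((l / c + 1 : ℕ) : ℝ)) ^ 4 * (2 * (A + 1) * c ^ 4) < 2 * 2 ^ (l / c) := by
        have e : (2 : ℝ) ^ (l / c + 1) = 2 * 2 ^ (l / c) := by rw [pow_succ]; ring
        rw [one_mul, e] at h3
        exact h3
      have hA : (0 : ℝ) ≤ A := by positivity
      nlinarith [mul_le_mul_of_nonneg_left h8 hA, mul_nonneg (pow_nonneg hcp.le 4)
        (pow_nonneg (show (0 : ℝ) ≤ ((l / c + 1 : ℕ) : ℝ) by positivity) 4)]
    exact_mod_cast h6
  have h6 : Nat.clog 2 x ≤ l / c := by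
    rw [Nat.clog_le_iff_le_pow (by norm_num)]
    exact h5
  calc c * Nat.clog 2 x ≤ c * (l / c) := Nat.mul_le_mul_left _ h6
    _ ≤ l := Nat.mul_div_le l c

theorem clog_le_sqrt (x : ℕ) : Nat.clog 2 x ≤ 2 * (Nat.sqrt x + 1) := by
  have h1 : x ≤ (Nat.sqrt x + 1) ^ 2 := by
    have := Nat.lt_succ_sqrt x
    rw [sq]
    exact this.le
  rw [Nat.clog_le_iff_le_pow (by norm_num)]
  refine le_trans h1 ?_
  rw [pow_mul']
  apply Nat.pow_le_pow_left
  exact (Nat.lt_two_pow_self).le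

section Build

variable {G : Type} [Group G] {M : Mark G} {cons : List (ℕ × ℕ)} {δ : ℕ}

open Classical in
/-- build a level -/
noncomputable def mkLvl (hJ : StmtM5Junction) (hinv : Inv M cons δ) {p l n m : ℕ}
    {code : List Ltr → List Ltr} (hc : IsCode cons p l n m code) (K : Set (List Ltr))
    (hK : ∀ w ∈ K, w.length = l ∧ M.len (M.ev w) = l) : Lvl M cons δ where
  K := K
  l := l
  n := n
  m := m
  p := p
  code := code
  x w := if h : w ∈ K then (hJ G M cons δ hinv w (code w) (by rw [(hK w h).2, (hK w h).1])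
    (hc.pos w (hK w h).1) (hc.sep w (hK w h).1)).1.choose else lt
  y w := if h : w ∈ K then (hJ G M cons δ hinv w (code w) (by rw [(hK w h).2, (hK w h).1])
    (hc.pos w (hK w h).1) (hc.sep w (hK w h).1)).2.choose else lt
  inv := hinv
  isCode := hc
  hK := hK
  hx w := by
    by_cases h : w ∈ K
    · simp only [h, dif_pos]
      exact (hJ G M cons δ hinv w (code w) (by rw [(hK w h).2, (hK w h).1])
        (hc.pos w (hK w h).1) (hc.sep w (hK w h).1)).1.choose_spec.1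
    · simp [h]
  hy w := by
    by_cases h : w ∈ K
    · simp only [h, dif_pos]
      exact (hJ G M cons δ hinv w (code w) (by rw [(hK w h).2, (hK w h).1])
        (hc.pos w (hK w h).1) (hc.sep w (hK w h).1)).2.choose_spec.1
    · simp [h]
  jx w h := by
    simp only [h, dif_pos]
    have := (hJ G M cons δ hinv w (code w) (by rw [(hK w h).2, (hK w h).1])
        (hc.pos w (hK w h).1) (hc.sep w (hK w h).1)).1.choose_spec.2
    have e1 := (hK w h).1
    have e2 := hc.len w (hK w h).1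
    omega
  jy w h := by
    simp only [h, dif_pos]
    have := (hJ G M cons δ hinv w (code w) (by rw [(hK w h).2, (hK w h).1])
        (hc.pos w (hK w h).1) (hc.sep w (hK w h).1)).2.choose_spec.2
    have e1 := (hK w h).1
    have e2 := hc.len w (hK w h).1
    omega

/-- build the lines of a level -/
def mkLines (hL : StmtM5Lines) (V : Lvl M cons δ) (C : ℕ) (h1 : V.l + V.n + 2 ≤ C * V.l)
    (h2 : 100 * (δ + 1) ≤ V.l) (h3 : V.l ≤ V.n)
    (h4 : 1000 * (100 * (C + 1) * (δ + 1)) ≤ (V.l + V.n + 2) / 1000) : Lines M V.K where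
  R w := V.rel w
  δ := δ
  κ := 100 * (C + 1) * (δ + 1)
  θ := (V.l + V.n + 2) / 1000
  τ := V.l + V.n + 2
  hyp := V.inv.hyp
  hκ := by nlinarith [Nat.zero_le C, Nat.zero_le δ]
  hθ := h4
  hτ := Nat.mul_div_le _ _
  lenR w := V.rel_length w.2
  str w a b c hab hbc := (hL G M cons δ V C h1 h2 h3 w w.2).1 a b c hab hbc
  gr w a b hab hb := (hL G M cons δ V C h1 h2 h3 w w.2).2.1 a b hab hb
  gr2 w a b hab := (hL G M cons δ V C h1 h2 h3 w w.2).2.2 a b hab

end Build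

section Kill

variable {G : Type} [Group G] {M : Mark G} {cons : List (ℕ × ℕ)} {δ : ℕ}

/-- infixes of the long part of a relator -/
theorem ax_long (V : Lvl M cons δ) (L : Lines M V.K) (hR : ∀ w, L.R w = V.rel w) (v : L.Y)
    (s k : ℕ) (h : s + k ≤ V.n + 2) :
    L.ax v ((V.l + s : ℕ) + (k : ℤ)) = L.ax v ((V.l + s : ℕ) : ℤ) *
      M.ev (((V.x v.1 :: (V.code v.1 ++ [V.y v.1])).drop s).take k) := by
  have hτ : L.τ = V.l + V.n + 2 := by
    rw [← L.lenR v.1, hR, V.rel_length v.1.2]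
  have h1 := L.ax_read v 0 (V.l + s) k (by omega)
  rw [zero_mul, zero_add, hR] at h1
  rw [h1]
  congr 2
  unfold Lvl.rel
  rw [← List.drop_drop, List.drop_left' (V.hK v.1 v.1.2).1]

end Kill

section Kill2

variable {G : Type} [Group G] {M : Mark G} {cons : List (ℕ × ℕ)} {δ : ℕ}

/-- in the quotient the axis closes up -/
theorem SC.ax_period {ι : Type} (L : SC M ι) (v : L.Y) (i : ℤ) :
    ((L.ax v (i + L.τ) : G) : L.H) = ((L.ax v i : G) : L.H) := by
  have h := L.ax_shift v 1 i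
  rw [one_mul] at h
  rw [h, eq_comm, Mark.quo_eq]
  exact ⟨_, L.rt_mem v 1, rfl⟩

theorem kill1 (V : Lvl M cons δ) (L : SC M V.K) (hR : ∀ w, L.R w = V.rel w) (C : ℕ)
    (hC : V.l + V.n + 2 ≤ C * V.l) (hl : 4 * L.κ ≤ V.l) (hn : 1 ≤ V.n) (v : L.Y) (s k : ℕ)
    (h : s + k ≤ V.n + 2) :
    k ≤ (2 * C + 5) * L.MH.d ((L.ax v ((V.l + s : ℕ) : ℤ) : G) : L.H)
      ((L.ax v ((V.l + s : ℕ) + (k : ℤ)) : G) : L.H) := by
  have hτ : L.τ = V.l + V.n + 2 := by
    rw [← L.lenR v.1, hR, V.rel_length v.1.2]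
  have hκ := L.hκ
  have hθ := L.hθ
  have hτ' := L.hτ
  set P := L.ax v ((V.l + s : ℕ) : ℤ) with hP
  set Q := L.ax v ((V.l + s : ℕ) + (k : ℤ)) with hQ
  set E := L.MH.d (P : L.H) (Q : L.H) with hE
  by_cases h1 : 4 * k ≤ L.τ
  · -- short pieces stay geodesic
    have hd : M.d P Q = k := by
      rw [hQ, ax_long V L.toLines hR v s k h, ← hP, M.d_mul_right_self]
      have := (V.u_geod v.1.2 hn).sub (a := ((V.x v.1 :: (V.code v.1 ++ [V.y v.1])).drop s).take k)
        ((List.take_prefix _ _).isInfix.trans (List.drop_suffix _ _).isInfix)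
      unfold Mark.Gd at this
      rw [this, List.length_take, List.length_drop]
      have hlen := V.isCode.len v.1 (V.hK v.1 v.1.2).1
      simp [hlen]
      omega
    have hE' : E = k := by
      rw [hE, L.trans_eq (B := L.τ / 4 + 2 * L.κ) (by omega) ?_, hd]
      intro u
      by_cases huv : v = u
      · subst huv
        unfold Lines.dv
        have a1 := L.pr_ax v ((V.l + s : ℕ) : ℤ)
        have a2 := L.pr_ax v ((V.l + s : ℕ) + (k : ℤ))
        rw [← hP] at a1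
        rw [← hQ] at a2
        omega
      · have := L.ov v u huv ((V.l + s : ℕ) : ℤ) ((V.l + s : ℕ) + (k : ℤ))
        rw [hP, hQ]
        omega
    rw [hE']
    nlinarith
  · by_cases h2 : 2 * k ≤ L.τ + 2
    · have h3 := L.circle v ((V.l + s : ℕ) : ℤ) ((V.l + s : ℕ) + (k : ℤ)) (by omega)
      rw [← hP, ← hQ, ← hE] at h3
      have h4 : k ≤ 5 * E := by omega
      nlinarith
    · have h3 := L.circle v ((V.l + s : ℕ) + (k : ℤ)) (((V.l + s : ℕ) : ℤ) + L.τ) (by omega)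
      rw [L.ax_period, ← hP, ← hQ] at h3
      have hsy := L.MH.isGeo.symm (P : L.H) (Q : L.H)
      rw [← hsy, ← hE] at h3
      have h4 : V.l ≤ 2 * E ∨ L.τ ≤ 5 * E := by omega
      rcases h4 with h4 | h4
      · have h5 : C * V.l ≤ C * (2 * E) := Nat.mul_le_mul_left _ h4
        nlinarith
      · nlinarith

theorem kill2 (V : Lvl M cons δ) (L : SC M V.K) (hR : ∀ w, L.R w = V.rel w)
    (hl : 4 * L.κ + 8 ≤ V.l) (hn : V.l ≤ V.n) (v : L.Y) (r : ℕ)
    (h : r ≤ V.n + 2) :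
    V.l ≤ 4 * L.MH.d ((L.ax v ((V.l / 2 : ℕ) : ℤ) : G) : L.H)
      ((L.ax v ((V.l + r : ℕ) : ℤ) : G) : L.H) := by
  have hτ : L.τ = V.l + V.n + 2 := by
    rw [← L.lenR v.1, hR, V.rel_length v.1.2]
  have hκ := L.hκ
  have hθ := L.hθ
  have hτ' := L.hτ
  set P := L.ax v ((V.l / 2 : ℕ) : ℤ) with hP
  set Q := L.ax v ((V.l + r : ℕ) : ℤ) with hQ
  set E := L.MH.d (P : L.H) (Q : L.H) with hE
  by_cases h2 : 2 * (V.l + r - V.l / 2) ≤ L.τ + 2
  · have h3 := L.circle v ((V.l / 2 : ℕ) : ℤ) ((V.l + r : ℕ) : ℤ) (by omega)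
    rw [← hP, ← hQ, ← hE] at h3
    omega
  · have h3 := L.circle v ((V.l + r : ℕ) : ℤ) (((V.l / 2 : ℕ) : ℤ) + L.τ) (by omega)
    rw [L.ax_period, ← hP, ← hQ] at h3
    have hsy := L.MH.isGeo.symm (P : L.H) (Q : L.H)
    rw [← hsy, ← hE] at h3
    omega

/-- the detour around a word of `K` -/
theorem kill (V : Lvl M cons δ) (L : SC M V.K) (hR : ∀ w, L.R w = V.rel w) (C : ℕ)
    (hC : V.l + V.n + 2 ≤ C * V.l) (hl : 4 * L.κ + 8 ≤ V.l) (hn : V.l ≤ V.n) (w : List Ltr)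
    (hw : w ∈ V.K) : ∃ q : List Ltr, q.length ≤ C * V.l ∧ L.MH.ev q = L.MH.ev w ∧
      (∀ ζ, ζ <:+: q → ζ.length ≤ (2 * C + 5) * L.MH.len (L.MH.ev ζ)) ∧
      (∀ j ≤ q.length, V.l ≤ 4 * L.MH.d (L.MH.ev (w.take (V.l / 2))) (L.MH.ev (q.take j))) := by
  have hwl := (V.hK w hw).1
  have hcl := V.isCode.len w hwl
  have hτ : L.τ = V.l + V.n + 2 := by
    rw [← L.lenR ⟨w, hw⟩, hR, V.rel_length hw]
  set u : List Ltr := V.x w :: (V.code w ++ [V.y w]) with hu
  have hul : u.length = V.n + 2 := by simp [hu, hcl]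
  set v : L.Y := ⟨⟨w, hw⟩, ((1 : G) : G ⧸ Subgroup.zpowers (L.r ⟨w, hw⟩))⟩ with hv
  have hrel : V.rel w = w ++ u := rfl
  have hinH : L.MH.ev w * L.MH.ev u = 1 := by
    have h1 : L.r ⟨w, hw⟩ ∈ L.N := L.r_mem _
    have h2 : L.r ⟨w, hw⟩ = M.ev w * M.ev u := by
      unfold Lines.r
      rw [hR, hrel, M.ev_append]
    rw [h2] at h1
    have h3 : ((M.ev w * M.ev u : G) : L.H) = 1 := (QuotientGroup.eq_one_iff _).2 h1
    have e1 : L.MH.ev w = ((M.ev w : G) : L.H) := M.quo_ev _ _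
    have e2 : L.MH.ev u = ((M.ev u : G) : L.H) := M.quo_ev _ _
    rw [e1, e2]
    exact h3
  have hevu : (L.MH.ev u)⁻¹ = L.MH.ev w := (eq_inv_of_mul_eq_one_left hinH).symm
  -- points of the axis
  have hpt : ∀ a : List Ltr, ∀ g : G, ((g * M.ev a : G) : L.H) = ((g : G) : L.H) * L.MH.ev a := by
    intro a g
    have e1 : L.MH.ev a = ((M.ev a : G) : L.H) := M.quo_ev _ _
    rw [e1]; rfl
  refine ⟨invw u, ?_, ?_, ?_, ?_⟩
  · rw [invw_length, hul]; omega
  · rw [L.MH.ev_invw, hevu]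
  · intro ζ hζ
    have h1 : invw ζ <:+: u := by
      have := invw_sub hζ
      rwa [invw_invw] at this
    obtain ⟨a, b, hab⟩ := h1
    have h2 : invw ζ = (u.drop a.length).take ζ.length := by
      rw [← hab, List.append_assoc, List.drop_left, ← invw_length ζ, List.take_left]
    have h3 : a.length + ζ.length ≤ V.n + 2 := by
      rw [← hul, ← hab]; simp [invw_length]
    have h4 := kill1 V L hR C hC (by omega) (by omega) v a.length ζ.length h3
    rw [ax_long V L.toLines hR v a.length ζ.length h3] at h4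
    have h5 : (((V.x v.1 :: (V.code v.1 ++ [V.y v.1])).drop a.length).take ζ.length) =
        invw ζ := h2.symm
    rw [h5, hpt, L.MH.d_mul_right_self, L.MH.ev_invw, L.MH.len_inv] at h4
    exact h4
  · intro j hj
    rw [invw_length, hul] at hj
    have h1 := kill2 V L hR hl hn v (u.length - j) (by omega)
    have e1 : L.ax v ((V.l / 2 : ℕ) : ℤ) = v.2.out * M.ev (w.take (V.l / 2)) := by
      unfold Lines.ax
      congr 1
      have h2 := M.line_eq (L.R v.1) (L.hR _) 0 (V.l / 2) (by rw [L.lenR]; omega)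
      rw [zero_mul, zero_add] at h2
      rw [h2, zpow_zero, one_mul, hR]
      congr 1
      change (w ++ u).take _ = _
      rw [List.take_append_of_le_length (by omega)]
    have e2 : L.ax v ((V.l + (u.length - j) : ℕ) : ℤ) =
        v.2.out * M.ev (w ++ u.take (u.length - j)) := by
      unfold Lines.ax
      congr 1
      have h2 := M.line_eq (L.R v.1) (L.hR _) 0 (V.l + (u.length - j)) (by rw [L.lenR]; omega)
      rw [zero_mul, zero_add] at h2
      rw [h2, zpow_zero, one_mul, hR]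
      congr 1
      change (w ++ u).take _ = _
      rw [← hwl, List.take_length_add_append]
    rw [e1, e2, hpt, hpt, L.MH.d_mul_left] at h1
    have e3 : L.MH.ev ((invw u).take j) = L.MH.ev (w ++ u.take (u.length - j)) := by
      have h6 : (invw u).take j = invw (u.drop (u.length - j)) := by
        unfold invw
        rw [List.take_reverse, List.length_map, ← List.map_drop]
      rw [h6, L.MH.ev_invw, L.MH.ev_append, ← hevu]
      have h7 : L.MH.ev u = L.MH.ev (u.take (u.length - j)) * L.MH.ev (u.drop (u.length - j)) := by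
        rw [← L.MH.ev_append, List.take_append_drop]
      rw [h7]
      group
    rw [e3]
    exact h1

end Kill2

section Bottle

variable {G : Type} [Group G] {M : Mark G} {ι : Type}

/-- small scales: from the bottleneck lemma for small cancellation quotients -/
theorem bottle_small (hB : StmtM6Bottle) (L : SC M ι) (e : Ltr) (B₀ D' k s : ℕ)
    (he : ∀ j : ℕ, M.len (M.s e ^ j) = j) (hH : ∀ j : ℕ, L.MH.len (L.MH.s e ^ j) = j)
    (hdv : ∀ (v : L.Y) (i j : ℤ), L.dv v (M.s e ^ i) (M.s e ^ j) ≤ B₀) (h1 : B₀ ≤ L.θ)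
    (h2 : L.κ ≤ D') (h3 : 100 * D' ≤ L.θ) (hk : 1 ≤ k) (hs : 2 * k * D' ≤ s)
    (hclog : 4 * L.δ * Nat.clog 2 (k * s) ≤ D')
    (hτ : 8 * k ^ 2 * (B₀ + 200 * D') < L.τ) : Bottle L.MH e k s := by
  intro n f hn hf h0 hfn
  by_contra hc
  push Not at hc
  have hcast : ∀ j : ℤ, ((M.s e ^ j : G) : L.H) = L.MH.s e ^ j := fun j => rfl
  have hmono : Nat.clog 2 n ≤ Nat.clog 2 (k * s) := Nat.clog_mono_right 2 hn
  have h4 := hB G M ι L (M.s e) B₀ D' he hdv h1 h2 h3 n f (-(s : ℤ)) s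
    (le_trans (Nat.mul_le_mul_left _ hmono) hclog) hf (by omega)
    (by rw [h0, hcast, zpow_neg, zpow_natCast, inv_pow])
    (by rw [hfn, hcast, zpow_natCast])
  set J : Set ℤ := {j : ℤ | -(s : ℤ) ≤ j ∧ j ≤ s ∧
        ∀ i ≤ n, D' < L.MH.d ((M.s e ^ j : G) : L.H) (f i)} with hJ
  have hsub : ((Finset.Icc (-((s / (2 * k) : ℕ) : ℤ)) ((s / (2 * k) : ℕ) : ℤ) : Finset ℤ) :
      Set ℤ) ⊆ J := by
    intro j hj
    rw [Finset.mem_coe, Finset.mem_Icc] at hj
    have hjs : j.natAbs ≤ s / (2 * k) := by omega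
    have hjs' : 2 * k * j.natAbs ≤ s := by
      calc 2 * k * j.natAbs ≤ 2 * k * (s / (2 * k)) := Nat.mul_le_mul_left _ hjs
        _ ≤ s := Nat.mul_div_le _ _
    have hdiv : s / (2 * k) ≤ s := Nat.div_le_self _ _
    refine ⟨by omega, by omega, fun i hi => ?_⟩
    have h5 := hc i hi
    have h6 : L.MH.d 1 ((M.s e ^ j : G) : L.H) = j.natAbs := by
      rw [L.MH.d_one_left, hcast]
      rcases Int.natAbs_eq j with h | h
      · conv_lhs => rw [h]
        rw [zpow_natCast, hH]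
      · conv_lhs => rw [h]
        rw [zpow_neg, zpow_natCast, L.MH.len_inv, hH]
    have h7 := L.MH.isGeo.tri 1 ((M.s e ^ j : G) : L.H) (f i)
    rw [h6] at h7
    by_contra h8
    push Not at h8
    have h9 : k * L.MH.d 1 (f i) ≤ k * (j.natAbs + D') := Nat.mul_le_mul_left _ (by omega)
    have h10 : k * (j.natAbs + D') = k * j.natAbs + k * D' := by ring
    have h11 : 2 * k * j.natAbs = 2 * (k * j.natAbs) := by ring
    have h12 : 2 * k * D' = 2 * (k * D') := by ring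
    omega
  have hfin : J.Finite := by
    apply Set.Finite.subset (Set.finite_Icc (-(s : ℤ)) s)
    intro j hj
    exact ⟨hj.1, hj.2.1⟩
  have hcard := Set.ncard_le_ncard hsub hfin
  rw [Set.ncard_coe_finset, Int.card_Icc] at hcard
  have h5 : s < 2 * k * J.ncard := by
    have h6 : s < 2 * k * (s / (2 * k) + 1) := by
      have := Nat.lt_mul_div_succ s (show 0 < 2 * k by omega)
      exact this
    have h7 : s / (2 * k) + 1 ≤ J.ncard := by omega
    exact lt_of_lt_of_le h6 (Nat.mul_le_mul_left _ h7)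
  have hτ0 : 0 < L.τ := by omega
  have h6 : s * L.τ < 2 * k * (J.ncard * L.τ) := by
    rw [← mul_assoc]
    exact Nat.mul_lt_mul_of_pos_right h5 hτ0
  have h7 : 2 * k * (J.ncard * L.τ) ≤ 2 * k * (4 * (k * s) * (B₀ + 200 * D')) := by
    apply Nat.mul_le_mul_left
    refine le_trans h4 ?_
    apply Nat.mul_le_mul_right
    omega
  have h8 : 2 * k * (4 * (k * s) * (B₀ + 200 * D')) = s * (8 * k ^ 2 * (B₀ + 200 * D')) := by
    ring
  rw [h8] at h7
  have h9 := lt_of_lt_of_le h6 h7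
  have h10 := Nat.lt_of_mul_lt_mul_left h9
  omega

/-- large scales: from hyperbolicity -/
theorem bottle_large {H : Type} [Group H] (M' : Mark H) (e : Ltr) (δ' k s : ℕ)
    (hyp : Hyp M'.d δ') (he : ∀ j : ℕ, M'.len (M'.s e ^ j) = j)
    (h1 : 16 * k * δ' ≤ s) (h2 : k * (16 * k * δ') ^ 2 ≤ s) : Bottle M' e k s := by
  intro n f hn hf h0 hfn
  have hd1 : M'.d (f 0) 1 = s := by
    rw [M'.isGeo.symm, M'.d_one_left, h0, inv_pow, M'.len_inv, he]
  have hd2 : M'.d 1 (f n) = s := by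
    rw [M'.d_one_left, hfn, he]
  have hd3 : M'.d (f 0) (f n) = s + s := by
    unfold Mark.d
    rw [h0, hfn, inv_pow, inv_inv, ← pow_add, he]
  obtain ⟨i, hi, h3⟩ := path_near M'.isGeo hyp n f hf 1 (by rw [hd1, hd2, hd3])
  refine ⟨i, hi, ?_⟩
  have h4 : Nat.clog 2 n ≤ 2 * (Nat.sqrt (k * s) + 1) :=
    le_trans (Nat.clog_mono_right 2 hn) (clog_le_sqrt _)
  have h5 : 16 * k * δ' * Nat.sqrt (k * s) ≤ s := by
    have h6 : (16 * k * δ' * Nat.sqrt (k * s)) ^ 2 ≤ s ^ 2 := by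
      have h7 : Nat.sqrt (k * s) ^ 2 ≤ k * s := Nat.sqrt_le' _
      calc (16 * k * δ' * Nat.sqrt (k * s)) ^ 2
          = (16 * k * δ') ^ 2 * Nat.sqrt (k * s) ^ 2 := by ring
        _ ≤ (16 * k * δ') ^ 2 * (k * s) := Nat.mul_le_mul_left _ h7
        _ = (k * (16 * k * δ') ^ 2) * s := by ring
        _ ≤ s * s := Nat.mul_le_mul_right _ h2
        _ = s ^ 2 := by ring
    exact (Nat.pow_le_pow_iff_left (by norm_num)).1 h6
  calc k * M'.d 1 (f i) ≤ k * (4 * δ' * Nat.clog 2 n) := Nat.mul_le_mul_left _ h3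
    _ ≤ k * (4 * δ' * (2 * (Nat.sqrt (k * s) + 1))) := by
        apply Nat.mul_le_mul_left
        exact Nat.mul_le_mul_left _ h4
    _ ≤ s := by
        have e1 : k * (4 * δ' * (2 * (Nat.sqrt (k * s) + 1))) * 2 =
          16 * k * δ' * Nat.sqrt (k * s) + 16 * k * δ' := by ring
        omega

end Bottle

section Final

/-- lines of letters -/
theorem clean_letter {cons : List (ℕ × ℕ)} (hc : ∀ c ∈ cons, 3 ≤ c.2 ∧ c.1 ≤ c.2) {e : Ltr}
    (he : e ∈ [lc, lt]) (j : ℕ) : Clean cons (List.replicate j e) := by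
  have hinv : invw (List.replicate j e) = List.replicate j (inv1 e) := by
    simp [invw]
  have hred : ∀ x : Ltr, Red (List.replicate j x) := by
    intro x
    unfold Red
    refine List.isChain_replicate_of_rel j ?_
    intro h
    have := congrArg Prod.snd h
    simp [inv1] at this
  have hsub : ∀ (x : Ltr) (y : List Ltr), y <:+: List.replicate j x →
      y = List.replicate y.length x := by
    intro x y hy
    rw [List.eq_replicate_iff]
    exact ⟨rfl, fun b hb => List.eq_of_mem_replicate (hy.subset hb)⟩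
  refine ⟨hred e, ?_, ?_⟩
  · intro c hcc y hy hp hl
    have h1 := hsub e y hy
    have h2 := hc c hcc
    have hy0 : 0 < y.length := by omega
    have hpe : e.1 ≠ 3 := by
      have hm : e ∈ y := by
        rw [h1, List.mem_replicate]
        exact ⟨by omega, rfl⟩
      exact (hp e hm).1
    have hec : e = lc := by
      simp only [List.mem_cons, List.not_mem_nil, or_false] at he
      rcases he with h | h
      · exact h
      · rw [h] at hpe; exact absurd rfl hpe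
    rw [h1, hec]
    refine ⟨[], List.replicate (y.length - c.1) lc, ?_⟩
    rw [List.nil_append, ← List.replicate_add]
    congr 1
    omega
  · intro c hcc y hy hp hl
    rw [hinv] at hy
    have h1 := hsub (inv1 e) y hy
    have h2 := hc c hcc
    exfalso
    have hm : inv1 e ∈ y := by
      rw [h1, List.mem_replicate]
      exact ⟨by omega, rfl⟩
    have hpe : (inv1 e).2 = true := (hp (inv1 e) hm).2
    simp only [List.mem_cons, List.not_mem_nil, or_false] at he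
    rcases he with h | h <;> (rw [h] at hpe; simp [inv1] at hpe)

theorem auxQ1 (k : ℕ) : 2 * k * (k + 2) ≤ 2 * (10000 * (k + 1) ^ 2) := by
  have : 2 * (10000 * (k + 1) ^ 2) = 2 * k * (k + 2) + (19998 * k ^ 2 + 39996 * k + 20000) := by
    ring
  omega

theorem auxQ2 (k : ℕ) : 8 * k ^ 2 * 200 ≤ 2 * (10000 * (k + 1) ^ 2) := by
  have : 2 * (10000 * (k + 1) ^ 2) = 8 * k ^ 2 * 200 + (18400 * k ^ 2 + 40000 * k + 20000) := by
    ring
  omega

/-- **The step theorem.** -/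
theorem step (hC : StmtCodes) (hDH : StmtDehnHyp) (hJ : StmtM5Junction) (hL : StmtM5Lines)
    (hOv : StmtM5Ov) (hT : StmtM5Trans) (hE : StmtM5ELine) (hD : StmtM6Dehn)
    (hR : StmtM6Rig) (hB : StmtM6Bottle) : StmtStep := by
  obtain ⟨C₀, Good, hG0, hcodes⟩ := hC 10000000
  refine ⟨2 * (C₀ + 3) + 5, Good, hG0, ?_⟩
  intro G _ M cons δ hgood hinv k ρ
  obtain ⟨p, l₀, hcode⟩ := hcodes cons hgood
  obtain ⟨κ, hκdef⟩ : ∃ κ, κ = 100 * (C₀ + 3 + 1) * (δ + 1) := ⟨_, rfl⟩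
  obtain ⟨Λ1, hΛ1⟩ := hOv G M cons δ hinv κ
  obtain ⟨Λ2, hΛ2⟩ := hT G M cons δ hinv κ
  obtain ⟨Λ3, hΛ3⟩ := hE G M cons δ hinv κ
  obtain ⟨ρ₂, hρa, hρb, hρc⟩ : ∃ ρ₂, ρ ≤ ρ₂ ∧ p ≤ ρ₂ ∧ 2 ≤ ρ₂ :=
    ⟨ρ + p + 2, by omega, by omega, by omega⟩
  obtain ⟨B₀, hB₀⟩ : ∃ B₀, B₀ = 4 * ρ₂ + Λ3 := ⟨_, rfl⟩
  -- polynomial bound for the crossover scale
  obtain ⟨C₁, hC₁⟩ : ∃ C₁, C₁ = C₀ + 3 := ⟨_, rfl⟩
  obtain ⟨Z, hZ⟩ : ∃ Z : ℕ, Z = 10 ^ 6 := ⟨_, rfl⟩
  obtain ⟨Y, hY⟩ : ∃ Y, Y = 16 * k * (Z * C₁ ^ 2) := ⟨_, rfl⟩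
  obtain ⟨Q, hQ⟩ : ∃ Q, Q = 10000 * (k + 1) ^ 2 := ⟨_, rfl⟩
  obtain ⟨L1, hL1⟩ := clog_poly (k * (k * Y ^ 2 + Y)) (4 * δ * (2 * Q))
  obtain ⟨Qκ, hQκ⟩ : ∃ Qκ, Qκ = 2 * Q * κ := ⟨_, rfl⟩
  obtain ⟨kB, hkB⟩ : ∃ kB, kB = 8 * k ^ 2 * B₀ := ⟨_, rfl⟩
  refine ⟨l₀ + Λ1 + Λ2 + 2 * B₀ + Qκ + 10000000 * (κ + 1) + L1 + kB + 1, ?_⟩
  intro l hl e he K hK hKρ
  obtain ⟨n, m, code, hcd, hNm, hNl, hnC, hgood'⟩ := hcode l (by omega)
  have hm3 := hcd.m3
  have hδκ : 100 * (δ + 1) ≤ κ := by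
    rw [hκdef]
    calc 100 * (δ + 1) = 100 * 1 * (δ + 1) := by ring
      _ ≤ 100 * (C₀ + 3 + 1) * (δ + 1) := by
        apply Nat.mul_le_mul_right
        apply Nat.mul_le_mul_left
        omega
  obtain ⟨τ, hτdef⟩ : ∃ τ, τ = l + n + 2 := ⟨_, rfl⟩
  have f1 : l ≤ n := by omega
  have f2 : l + n + 2 ≤ C₁ * l := by
    rw [hC₁, Nat.add_mul]
    omega
  have f3 : 100 * (δ + 1) ≤ l := by omega
  have f4 : 1000 * κ ≤ (l + n + 2) / 1000 := by
    rw [Nat.le_div_iff_mul_le (by norm_num)]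
    omega
  have f5 : 1000 * l ≤ (l + n + 2) / 1000 := by
    rw [Nat.le_div_iff_mul_le (by norm_num)]
    omega
  have f6 : 1000 * m ≤ (l + n + 2) / 1000 := by
    rw [Nat.le_div_iff_mul_le (by norm_num)]
    omega
  have f7 : Λ1 ≤ l := by omega
  have f8 : Λ2 ≤ l := by omega
  have f9 : 4 * ρ₂ + Λ3 ≤ l := by omega
  have f10 : 4 * κ + 8 ≤ l := by omega
  have f11 : Qκ ≤ l := by omega
  have f12 : kB ≤ l := by omega
  have f13 : B₀ ≤ l := by omega
  have f14 : L1 ≤ l := by omega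
  have f15 : 3 * l ≤ τ := by omega
  have f16 : 1 ≤ l := by omega
  have f17 : (l + n + 2) / 1000 * 1000 ≤ l + n + 2 := Nat.div_mul_le_self _ _
  have f18 : 1 ≤ κ := by omega
  clear hl hNm hNl hnC
  -- the level
  set V : Lvl M cons δ := mkLvl hJ hinv hcd K hK with hV
  have hVl : V.l = l := rfl
  have hVn : V.n = n := rfl
  have hVm : V.m = m := rfl
  have hVp : V.p = p := rfl
  have hVK : V.K = K := rfl
  set L0 : Lines M V.K := mkLines hL V C₁ f2 f3 f1 (by rw [hC₁, ← hκdef]; exact f4) with hL0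
  have hLR : ∀ w, L0.R w = V.rel w := fun w => rfl
  have hLκ : L0.κ = κ := by rw [hκdef, ← hC₁]; rfl
  have hLδ : L0.δ = δ := rfl
  have hLτ : L0.τ = τ := hτdef.symm
  have hLθ : L0.θ = (l + n + 2) / 1000 := rfl
  clear_value L0
  clear hL0
  have hov := hΛ1 V L0 hLR hLκ f7 (by rw [hLθ]; exact f5) (by rw [hLθ]; exact f6)
  have htr0 := hΛ2 V L0 hLR hLκ f8 (by rw [hLθ]; exact f5) (by rw [hLθ]; exact f6)
  have hKρ' : ∀ w ∈ V.K, ¬ (List.replicate ρ₂ e <:+: w) ∧
      ¬ (List.replicate ρ₂ (inv1 e) <:+: w) := by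
    intro w hw
    have h1 := hKρ w hw
    have h2 : ∀ x : Ltr, List.replicate ρ x <:+: List.replicate ρ₂ x := fun x => by
      refine ⟨[], List.replicate (ρ₂ - ρ) x, ?_⟩
      rw [List.nil_append, ← List.replicate_add]
      congr 1
      omega
    exact ⟨fun h => h1.1 ((h2 e).trans h), fun h => h1.2 ((h2 (inv1 e)).trans h)⟩
  have hel0 := hΛ3 V L0 hLR hLκ (by rw [hLθ]; exact f5) f1 e he ρ₂ hρc
    (fun _ => hρb) f9 hKρ'
  rw [← hB₀] at hel0
  obtain ⟨L, hLL⟩ : ∃ L : SC M V.K, L.toLines = L0 := ⟨{ L0 with ov := hov }, rfl⟩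
  subst hLL
  clear hov
  have g1 : 1000 * l ≤ L.θ := by rw [hLθ]; exact f5
  have g2 := L.hτ
  have g3 := L.hθ
  have g4 : L.τ ≤ C₁ * l := by rw [hLτ, hτdef]; exact f2
  clear hLθ f4 f5 f6 f17
  -- the new invariant
  have hcons' : ∀ c ∈ ((p, m) :: cons), 3 ≤ c.2 ∧ c.1 ≤ c.2 := by
    intro c hc
    rcases List.mem_cons.1 hc with h | h
    · rw [h]; exact ⟨hcd.m3, hcd.pm⟩
    · exact hinv.cons_ok c h
  have hhyp' : Hyp L.MH.d (10 ^ 6 * L.τ ^ 2) :=
    hDH L.H L.MH.d L.τ L.MH.isGeo (by rw [hLτ]; omega) (hD G M V.K L)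
  rw [← hZ] at hhyp'
  have hgeod' : ∀ z, Clean ((p, m) :: cons) z → L.MH.len (L.MH.ev z) = z.length := by
    intro z hz
    have h1 := L.trans_eq (P := 1) (Q := M.ev z) (B := L.θ) (by omega) (fun v => by
        have := htr0 z hz v 1
        rwa [one_mul] at this)
    have h2 : L.MH.d ((1 : G) : L.H) ((M.ev z : G) : L.H) = L.MH.len (L.MH.ev z) := by
      have e1 : L.MH.ev z = ((M.ev z : G) : L.H) := M.quo_ev _ _
      rw [e1]
      exact L.MH.d_one_left _
    rw [← h2, h1, M.d_one_left]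
    exact hinv.geod z (clean_tail hz)
  have hinv' : Inv L.MH ((p, m) :: cons) (Z * L.τ ^ 2) :=
    { cons_ok := hcons'
      hyp := hhyp'
      geod := hgeod'
      rig := hR G M V.K L cons ((p, m) :: cons) (fun z hz => clean_tail hz) hinv.geod hinv.rig
        htr0 }
  have hgeoe : ∀ e' ∈ [lc, lt], ∀ j : ℕ, L.MH.len (L.MH.s e' ^ j) = j := by
    intro e' he' j
    have h1 := hgeod' (List.replicate j e') (clean_letter hcons' he' j)
    rw [L.MH.ev_replicate, List.length_replicate] at h1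
    exact h1
  have hgeoe0 : ∀ e' ∈ [lc, lt], ∀ j : ℕ, M.len (M.s e' ^ j) = j := by
    intro e' he' j
    have h1 := hinv.geod (List.replicate j e') (clean_letter hinv.cons_ok he' j)
    rw [M.ev_replicate, List.length_replicate] at h1
    exact h1
  refine ⟨L.H, inferInstance, L.MH, QuotientGroup.mk' L.N, (p, m) :: cons, Z * L.τ ^ 2,
    hgood', hinv', ?_⟩
  refine ⟨fun x => rfl, QuotientGroup.mk'_surjective _, ?_, ?_, ?_, hgeoe⟩
  · -- kernel
    intro g hg hg1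
    have h1 : g ∈ L.N := by
      rw [← QuotientGroup.ker_mk' L.N]
      exact hg
    have h2 := L.long h1 hg1
    rw [hLτ] at h2
    omega
  · -- kill
    intro w hw
    obtain ⟨q, h1, h2, h3, h4⟩ := kill V L hLR C₁ f2 (by rw [hLκ]; exact f10) f1 w hw
    have hCC : C₁ ≤ 2 * (C₀ + 3) + 5 := by omega
    refine ⟨q, le_trans h1 (Nat.mul_le_mul_right _ hCC), h2, ?_, h4⟩
    intro ζ hζ
    have := h3 ζ hζ
    rw [hC₁] at this
    exact this
  · -- bottlenecks
    intro s hs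
    rcases Nat.eq_zero_or_pos k with hk | hk
    · subst hk
      intro n' f hn' hf h0 hfn
      refine ⟨0, by omega, by omega⟩
    obtain ⟨δ', hδ'⟩ : ∃ δ', δ' = Z * L.τ ^ 2 := ⟨_, rfl⟩
    rw [← hδ'] at hhyp'
    obtain ⟨W, hW⟩ : ∃ W, W = 16 * k * δ' := ⟨_, rfl⟩
    obtain ⟨W2, hW2⟩ : ∃ W2, W2 = k * W ^ 2 := ⟨_, rfl⟩
    by_cases hbig : W2 + W ≤ s
    · refine bottle_large L.MH e δ' k s hhyp' (hgeoe e he) ?_ ?_
      · rw [← hW]; omega
      · rw [← hW, ← hW2]; omega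
    · push Not at hbig
      -- small scales
      have hQpos : 0 < 2 * Q := by rw [hQ]; positivity
      obtain ⟨D', hD'⟩ : ∃ D', D' = l / (2 * Q) := ⟨_, rfl⟩
      have hD'l : 2 * Q * D' ≤ l := by rw [hD']; exact Nat.mul_div_le _ _
      have hD'κ : κ ≤ D' := by
        rw [hD', Nat.le_div_iff_mul_le hQpos, mul_comm κ, ← hQκ]
        exact f11
      have hδ'le : δ' ≤ Z * C₁ ^ 2 * l ^ 2 := by
        rw [hδ']
        calc Z * L.τ ^ 2 ≤ Z * (C₁ * l) ^ 2 := by
              apply Nat.mul_le_mul_left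
              exact Nat.pow_le_pow_left g4 2
          _ = Z * C₁ ^ 2 * l ^ 2 := by ring
      have hYl : W ≤ Y * l ^ 2 := by
        rw [hW]
        calc 16 * k * δ' ≤ 16 * k * (Z * C₁ ^ 2 * l ^ 2) := Nat.mul_le_mul_left _ hδ'le
          _ = Y * l ^ 2 := by rw [hY]; ring
      have hks : k * s ≤ k * (k * Y ^ 2 + Y) * l ^ 4 := by
        have h1 : s ≤ k * (Y * l ^ 2) ^ 2 + Y * l ^ 2 := by
          have h2 : W ^ 2 ≤ (Y * l ^ 2) ^ 2 := Nat.pow_le_pow_left hYl 2
          have h3 : W2 ≤ k * (Y * l ^ 2) ^ 2 := by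
            rw [hW2]; exact Nat.mul_le_mul_left k h2
          exact le_trans hbig.le (Nat.add_le_add h3 hYl)
        have h4 : Y * l ^ 2 ≤ Y * l ^ 4 := by
          apply Nat.mul_le_mul_left
          exact Nat.pow_le_pow_right f16 (by norm_num)
        calc k * s ≤ k * (k * (Y * l ^ 2) ^ 2 + Y * l ^ 2) := Nat.mul_le_mul_left _ h1
          _ ≤ k * (k * (Y * l ^ 2) ^ 2 + Y * l ^ 4) := by
              apply Nat.mul_le_mul_left
              exact Nat.add_le_add_left h4 _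
          _ = k * (k * Y ^ 2 + Y) * l ^ 4 := by ring
      have hclog := hL1 l f14 (k * s) hks
      have hclog' : 4 * δ * Nat.clog 2 (k * s) ≤ D' := by
        rw [hD', Nat.le_div_iff_mul_le hQpos]
        calc 4 * δ * Nat.clog 2 (k * s) * (2 * Q) = 4 * δ * (2 * Q) * Nat.clog 2 (k * s) := by ring
          _ ≤ l := hclog
      have hQk : 2 * k * (k + 2) ≤ 2 * Q := by
        rw [hQ]
        exact auxQ1 k
      have hsD : 2 * k * D' ≤ s := by
        have h1 : 2 * k * (k + 2) * D' ≤ l := le_trans (Nat.mul_le_mul_right _ hQk) hD'l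
        have h2 : (k + 2) * (2 * k * D') ≤ (k + 2) * s := by
          calc (k + 2) * (2 * k * D') = 2 * k * (k + 2) * D' := by ring
            _ ≤ l := h1
            _ ≤ (k + 2) * s := hs
        exact Nat.le_of_mul_le_mul_left h2 (by omega)
      have h2 : D' ≤ l := by rw [hD']; exact Nat.div_le_self _ _
      refine bottle_small hB L e B₀ D' k s (hgeoe0 e he) (hgeoe e he) hel0 ?_ ?_ ?_ hk hsD ?_ ?_
      · omega
      · rw [hLκ]; exact hD'κ
      · omega
      · rw [hLδ]; exact hclog'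
      · have h1 : 8 * k ^ 2 * (200 * D') ≤ l := by
          have h2 : 8 * k ^ 2 * 200 ≤ 2 * Q := by
            rw [hQ]; exact auxQ2 k
          calc 8 * k ^ 2 * (200 * D') = 8 * k ^ 2 * 200 * D' := by ring
            _ ≤ 2 * Q * D' := Nat.mul_le_mul_right _ h2
            _ ≤ l := hD'l
        have h5 : 8 * k ^ 2 * (B₀ + 200 * D') = kB + 8 * k ^ 2 * (200 * D') := by
          rw [hkB]; ring
        rw [h5]
        omega

end Final

end Pool.Agent.Helper93.ML
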